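import Pool.Agent.Q41.SP.Stm5

/-!
# Sublines with a proportion of the points independent of the level (V9)
-/

namespace Pool.Agent.Q246.SP

open Finset Polynomial
open Pool.Agent.Q41.SP Pool.Agent.Q41.SU

universe u

/-- (V9) -/
theorem fskP (h1 : S_fsk0P.{u}) (h2 : S_vdmP.{u}) : S_fskP.{u} := by
  classical
  intro l d β K ε hl hd hε
  -- the auxiliary level
  obtain ⟨K₁, hK₁⟩ : ∃ K₁, (β + 1) ^ 2 * l ^ K ≤ l ^ K₁ := by
    refine ⟨(β + 1) ^ 2 + K, ?_⟩
    rw [pow_add]
    exact Nat.mul_le_mul_right _ (Nat.lt_pow_self hl.one_lt).le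
  obtain ⟨η, M₀, hη, hM₀⟩ := h1 l d β K₁ (ε / 2) hl hd (by positivity)
  refine ⟨max M₀ (l ^ K₁), fun r H => ?_⟩
  obtain ⟨N₀, hN₀⟩ := hM₀ r H
  obtain ⟨C₁, hC₁⟩ := h2 l β K K₁ r H hl hK₁
  refine ⟨max N₀ ⌈(C₁ : ℝ) / η⌉₊, ?_⟩
  intro k E _ _ _ _ _ τ D hτ p q hRM n x hseg hn W hW hWc G hG hred hVa
  have hVa' : ∀ i ∈ W, Va M₀ G (x i) (tw l r τ (x i)) := fun i hi =>
    (pow_dvd_pow _ (le_max_left _ _)).trans (hVa i hi)
  have hVa'' : ∀ i ∈ W, Va (l ^ K₁) G (x i) (tw l r τ (x i)) := fun i hi =>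
    (pow_dvd_pow _ (le_max_right _ _)).trans (hVa i hi)
  have hnC : (C₁ : ℝ) ≤ η * n := by
    have h3 : (C₁ : ℝ) / η ≤ n := (Nat.ceil_le.mp ((le_max_right _ _).trans hn))
    rw [div_le_iff₀ hη] at h3
    linarith
  by_contra hcon
  push Not at hcon
  have key : ∀ j ≤ β + 1, ∃ (μ : ℕ → Mb E) (V : ℕ → Finset ℕ), ∀ a < j, (μ a).det ≠ 0 ∧
      V a ⊆ W ∧ η * n ≤ ((V a).card : ℝ) ∧ (∀ i ∈ V a, Sub l K₁ (μ a) (x i)) ∧
      ∀ b < a, ∀ i ∈ V a, ¬ Sub l K (μ b) (x i) := by
    intro j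
    induction j with
    | zero => exact fun _ => ⟨fun _ => ⟨0, 0, 0, 0⟩, fun _ => ∅, fun a ha => absurd ha (by omega)⟩
    | succ j ih =>
      intro hj
      obtain ⟨μ, V, hμ⟩ := ih (by omega)
      set Wj := W.filter fun i => ∀ a < j, ¬ Sub l K (μ a) (x i) with hWj
      have hsub : Wj ⊆ W := filter_subset _ _
      have hunion : W ⊆ Wj ∪ (range j).biUnion fun a => W.filter fun i => Sub l K (μ a) (x i) := by
        intro i hi
        rw [mem_union, mem_biUnion]
        by_cases h : ∀ a < j, ¬ Sub l K (μ a) (x i)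
        · left
          exact mem_filter.mpr ⟨hi, h⟩
        · right
          push Not at h
          obtain ⟨a, ha, h⟩ := h
          exact ⟨a, mem_range.mpr ha, mem_filter.mpr ⟨hi, h⟩⟩
      have hcard : (W.card : ℝ) ≤ Wj.card + ∑ a ∈ range j,
          ((W.filter fun i => Sub l K (μ a) (x i)).card : ℝ) := by
        have h3 := (card_le_card hunion).trans ((card_union_le _ _).trans
          (Nat.add_le_add_left card_biUnion_le _))
        exact_mod_cast h3
      have hsum : ∑ a ∈ range j, ((W.filter fun i => Sub l K (μ a) (x i)).card : ℝ) ≤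
          ∑ a ∈ range j, ε / (2 * (β + 1)) * n := by
        apply sum_le_sum
        intro a ha
        rw [mem_range] at ha
        by_contra h
        push Not at h
        obtain ⟨i, hi, hi'⟩ := hcon (μ a) (hμ a ha).1 (W.filter fun i => Sub l K (μ a) (x i))
          (filter_subset _ _) h.le
        exact hi' (mem_filter.mp hi).2
      rw [sum_const, card_range, nsmul_eq_mul] at hsum
      have hjb : (j : ℝ) * (ε / (2 * (β + 1)) * n) ≤ ε / 2 * n := by
        have h3 : (j : ℝ) ≤ β + 1 := by exact_mod_cast (by omega : j ≤ β + 1)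
        have h4 : (0 : ℝ) ≤ ε / (2 * (β + 1)) * n := by positivity
        calc (j : ℝ) * (ε / (2 * (β + 1)) * n) ≤ (β + 1) * (ε / (2 * (β + 1)) * n) :=
              mul_le_mul_of_nonneg_right h3 h4
          _ = ε / 2 * n := by
            field_simp
      have hWjc : ε / 2 * n ≤ (Wj.card : ℝ) := by
        have : ε * n = ε / 2 * n + ε / 2 * n := by ring
        linarith
      obtain ⟨μ', hμ', W', hW', hW'c, hW's⟩ := hN₀ k E τ D hτ p q hRM n x hseg
        ((le_max_left _ _).trans hn) Wj (hsub.trans hW) hWjc G hG hred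
        (fun i hi => hVa' i (hsub hi))
      refine ⟨fun a => if a = j then μ' else μ a, fun a => if a = j then W' else V a, ?_⟩
      intro a ha
      by_cases haj : a = j
      · subst haj
        simp only [if_true]
        refine ⟨hμ', hW'.trans hsub, hW'c, hW's, ?_⟩
        intro b hb i hi
        rw [if_neg (by omega)]
        exact (mem_filter.mp (hW' hi)).2 b hb
      · simp only [if_neg haj]
        obtain ⟨h3, h4, h5, h6, h7⟩ := hμ a (by omega)
        refine ⟨h3, h4, h5, h6, ?_⟩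
        intro b hb i hi
        rw [if_neg (by omega)]
        exact h7 b hb i hi
  obtain ⟨μ, V, hμ⟩ := key (β + 1) le_rfl
  have hinj : ∀ a < β + 1, Set.InjOn x (V a : Set ℕ) := by
    intro a ha i hi j hj hij
    exact hseg.inj i (mem_range.mp (hW ((hμ a ha).2.1 hi))) j
      (mem_range.mp (hW ((hμ a ha).2.1 hj))) hij
  obtain ⟨a, b, hab, y, hy, hys⟩ := hC₁ k E τ D hτ G hG hred (fun a => μ a)
    (fun a => (V a).image x) (fun a => (hμ a a.2).1)
    (fun a => by
      rw [card_image_of_injOn (hinj a a.2)]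
      have := (hμ a a.2).2.2.1
      exact_mod_cast hnC.trans this)
    (fun a y hy => by
      obtain ⟨i, hi, rfl⟩ := mem_image.mp hy
      exact ⟨(hμ a a.2).2.2.2.1 i hi, hVa'' i ((hμ a a.2).2.1 hi)⟩)
  obtain ⟨i, hi, rfl⟩ := mem_image.mp hy
  exact (hμ b b.2).2.2.2.2 a hab i hi hys

end Pool.Agent.Q246.SP
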