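import Pool.Agent.Q41.SP.Stm3

/-!
# Forward invariance (S_fwdP)
-/

namespace Pool.Agent.Q246.SP

open Finset Polynomial
open Pool.Agent.Q41.SP Pool.Agent.Q41.SU

universe u

/-! ### degree bounds -/

section Deg

variable {A : Type*} [CommRing A]

/-- coefficients of degree at most `K` -/
def Bd (K : ℕ) (F : A[X][X]) : Prop := ∀ i, (F.coeff i).natDegree ≤ K

lemma Bd.mono {K K' : ℕ} {F : A[X][X]} (h : Bd K F) (hK : K ≤ K') : Bd K' F :=
  fun i => (h i).trans hK

lemma Bd.mul {K K' : ℕ} {F F' : A[X][X]} (h : Bd K F) (h' : Bd K' F') : Bd (K + K') (F * F') := by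
  intro i
  rw [coeff_mul]
  apply natDegree_sum_le_of_forall_le
  intro x _
  exact natDegree_mul_le.trans (add_le_add (h _) (h' _))

lemma Bd.sub {K : ℕ} {F F' : A[X][X]} (h : Bd K F) (h' : Bd K F') : Bd K (F - F') := by
  intro i
  rw [coeff_sub]
  exact (natDegree_sub_le _ _).trans (max_le (h i) (h' i))

lemma Bd.sum {ι : Type*} {K : ℕ} (s : Finset ι) (F : ι → A[X][X]) (h : ∀ i ∈ s, Bd K (F i)) :
    Bd K (∑ i ∈ s, F i) := by
  intro j
  rw [finsetSum_coeff]
  apply natDegree_sum_le_of_forall_le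
  intro i hi
  exact h i hi j

lemma Bd.C {K : ℕ} {f : A[X]} (h : f.natDegree ≤ K) : Bd K (C f) := by
  intro i
  rw [coeff_C]
  split_ifs
  · exact h
  · simp

lemma Bd.Xp (n : ℕ) : Bd 0 (X ^ n : A[X][X]) := by
  intro i
  rw [coeff_X_pow]
  split_ifs <;> simp

lemma Bd.pow {K : ℕ} {F : A[X][X]} (h : Bd K F) (n : ℕ) : Bd (n * K) (F ^ n) := by
  induction n with
  | zero => simpa using Bd.Xp (A := A) 0
  | succ n ih =>
    rw [pow_succ]
    exact (ih.mul h).mono (by rw [Nat.succ_mul])

lemma Bd.mapC (f : A[X]) : Bd 0 (f.map Polynomial.C) := by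
  intro i
  rw [coeff_map]
  simp

/-- pseudo-division with bounds -/
lemma pdiv (β L : ℕ) (F : A[X][X]) (hF : ∀ i > β, F.coeff i = 0) (hL : Bd L F) (n : ℕ) :
    ∀ (K : ℕ) (N : A[X][X]), (∀ i ≥ β + n, N.coeff i = 0) → Bd K N →
    ∃ Qt Rm : A[X][X], C ((F.coeff β) ^ n) * N = Qt * F + Rm ∧ (∀ i ≥ β, Rm.coeff i = 0) ∧
      Bd (K + n * L) Rm := by
  induction n with
  | zero =>
    intro K N h1 h2
    exact ⟨0, N, by simp, by simpa using h1, by simpa using h2⟩
  | succ n ih =>
    intro K N h1 h2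
    obtain ⟨Qt, Rm, h3, h4, h5⟩ := ih (K + L) (C (F.coeff β) * N - C (N.coeff (β + n)) * X ^ n * F)
      (by
        intro i hi
        obtain ⟨m, rfl⟩ := Nat.exists_eq_add_of_le hi
        rw [coeff_sub, coeff_C_mul, mul_assoc, coeff_C_mul]
        have : β + n + m = (β + m) + n := by ring
        rw [this, coeff_X_pow_mul]
        rcases Nat.eq_zero_or_pos m with rfl | hm
        · simp only [add_zero]
          ring
        · rw [hF (β + m) (by omega), h1 (β + m + n) (by omega)]
          simp)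
      (by
        apply Bd.sub
        · have := (Bd.C (hL β)).mul h2
          exact this.mono (by omega)
        · have := ((Bd.C (h2 (β + n))).mul (Bd.Xp n)).mul hL
          exact this.mono (by omega))
    refine ⟨Qt + C ((F.coeff β) ^ n * N.coeff (β + n)) * X ^ n, Rm, ?_, h4, h5.mono ?_⟩
    · have e : C ((F.coeff β) ^ (n + 1)) * N = C ((F.coeff β) ^ n) *
          (C (F.coeff β) * N - C (N.coeff (β + n)) * X ^ n * F) +
          C ((F.coeff β) ^ n * N.coeff (β + n)) * X ^ n * F := by
        rw [pow_succ, C_mul, C_mul]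
        ring
      rw [e, h3]
      ring
    · rw [Nat.succ_mul]
      omega

end Deg

/-! ### sections of power series -/

section Sec

variable {E : Type*} [Field E]

/-- every `S`-th coefficient -/
noncomputable def sec (S : ℕ) : PowerSeries E →+ PowerSeries E where
  toFun f := PowerSeries.mk fun n => PowerSeries.coeff (S * n) f
  map_zero' := by
    ext n
    simp
  map_add' f g := by
    ext n
    simp

lemma coeff_sec (S n : ℕ) (f : PowerSeries E) :
    PowerSeries.coeff n (sec S f) = PowerSeries.coeff (S * n) f := by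
  simp [sec]

lemma sec_mul (S : ℕ) (hS : S ≠ 0) (f w : PowerSeries E) :
    sec S (f * PowerSeries.expand S hS w) = sec S f * w := by
  ext n
  rw [coeff_sec, PowerSeries.coeff_mul, PowerSeries.coeff_mul]
  symm
  apply Finset.sum_of_injOn (fun x : ℕ × ℕ => (S * x.1, S * x.2))
  · intro x _ y _ h
    simp only [Prod.mk.injEq] at h
    have h1 := Nat.eq_of_mul_eq_mul_left (Nat.pos_of_ne_zero hS) h.1
    have h2 := Nat.eq_of_mul_eq_mul_left (Nat.pos_of_ne_zero hS) h.2
    exact Prod.ext h1 h2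
  · intro x hx
    rw [Finset.mem_coe, Finset.HasAntidiagonal.mem_antidiagonal] at hx ⊢
    simp only
    rw [← hx, mul_add]
  · intro x hx hx'
    rw [PowerSeries.coeff_expand]
    split_ifs with hd
    · exfalso
      apply hx'
      obtain ⟨b, hb⟩ := hd
      rw [Finset.HasAntidiagonal.mem_antidiagonal] at hx
      have ha : S ∣ x.1 := by
        have h1 : S ∣ x.1 + x.2 := ⟨n, hx⟩
        have h2 : S ∣ x.2 := ⟨b, hb⟩
        exact (Nat.dvd_add_left h2).mp h1
      obtain ⟨a, ha⟩ := ha
      refine ⟨(a, b), ?_, ?_⟩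
      · rw [Finset.mem_coe, Finset.HasAntidiagonal.mem_antidiagonal]
        rw [ha, hb, ← mul_add] at hx
        exact Nat.eq_of_mul_eq_mul_left (Nat.pos_of_ne_zero hS) hx
      · exact Prod.ext ha.symm hb.symm
    · rw [mul_zero]
  · intro x _
    simp only
    rw [coeff_sec, PowerSeries.coeff_expand_mul]

lemma sec_dvd (S M : ℕ) (hS : S ≠ 0) (f : PowerSeries E)
    (h : (PowerSeries.X : PowerSeries E) ^ (S * M) ∣ f) :
    (PowerSeries.X : PowerSeries E) ^ M ∣ sec S f := by
  rw [PowerSeries.X_pow_dvd_iff] at h ⊢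
  intro m hm
  rw [coeff_sec]
  exact h _ ((Nat.mul_lt_mul_left (Nat.pos_of_ne_zero hS)).mpr hm)

lemma sec_const (S : ℕ) (f : PowerSeries E) :
    PowerSeries.constantCoeff (sec S f) = PowerSeries.constantCoeff f := by
  rw [← PowerSeries.coeff_zero_eq_constantCoeff_apply, coeff_sec, mul_zero,
    PowerSeries.coeff_zero_eq_constantCoeff_apply]

/-- the section of a relation -/
noncomputable def secP (S β H : ℕ) (F : (PowerSeries E)[X][X]) : (PowerSeries E)[X][X] :=
  ∑ i ∈ range β, C (∑ j ∈ range (H + 1), C (sec S ((F.coeff i).coeff j)) * X ^ j) * X ^ i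

lemma secP_coeff (S β H : ℕ) (F : (PowerSeries E)[X][X]) (i j : ℕ) (hi : i < β) (hj : j ≤ H) :
    ((secP S β H F).coeff i).coeff j = sec S ((F.coeff i).coeff j) := by
  unfold secP
  rw [finsetSum_coeff, Finset.sum_eq_single i]
  · rw [coeff_C_mul, coeff_X_pow, if_pos rfl, mul_one, finsetSum_coeff, Finset.sum_eq_single j]
    · rw [coeff_C_mul, coeff_X_pow, if_pos rfl, mul_one]
    · intro b _ hb
      rw [coeff_C_mul, coeff_X_pow, if_neg (Ne.symm hb), mul_zero]
    · intro h
      exact absurd (Finset.mem_range.mpr (by omega)) h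
  · intro b _ hb
    rw [coeff_C_mul, coeff_X_pow, if_neg (Ne.symm hb), mul_zero]
  · intro h
    exact absurd (Finset.mem_range.mpr hi) h

lemma secP_Dg (S β H : ℕ) (F : (PowerSeries E)[X][X]) : Dg (β - 1) H (secP S β H F) := by
  constructor
  · unfold secP
    apply natDegree_sum_le_of_forall_le
    intro i hi
    rw [Finset.mem_range] at hi
    exact (natDegree_C_mul_X_pow_le _ _).trans (by omega)
  · unfold secP
    apply Bd.sum
    intro i _
    have : Bd (H + 0) (C (∑ j ∈ range (H + 1), C (sec S ((F.coeff i).coeff j)) * X ^ j) * X ^ i) := by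
      apply Bd.mul
      · apply Bd.C
        apply natDegree_sum_le_of_forall_le
        intro j hj
        rw [Finset.mem_range] at hj
        exact (natDegree_C_mul_X_pow_le _ _).trans (by omega)
      · exact Bd.Xp i
    exact this

lemma evalEval_eq {A : Type*} [CommRing A] (F : A[X][X]) (β H : ℕ) (hβ : ∀ i ≥ β, F.coeff i = 0)
    (hH : Bd H F) (x y : A) :
    F.evalEval x y = ∑ i ∈ range β, ∑ j ∈ range (H + 1), (F.coeff i).coeff j * x ^ j * y ^ i := by
  have h1 : F = ∑ i ∈ range β, C (F.coeff i) * X ^ i := by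
    ext1 n
    rw [finsetSum_coeff]
    by_cases hn : n < β
    · rw [Finset.sum_eq_single n]
      · rw [coeff_C_mul, coeff_X_pow, if_pos rfl, mul_one]
      · intro b _ hb
        rw [coeff_C_mul, coeff_X_pow, if_neg (Ne.symm hb), mul_zero]
      · intro h
        exact absurd (Finset.mem_range.mpr hn) h
    · rw [hβ n (by omega), Finset.sum_eq_zero]
      intro b hb
      rw [Finset.mem_range] at hb
      rw [coeff_C_mul, coeff_X_pow, if_neg (by omega), mul_zero]
  conv_lhs => rw [h1]
  rw [evalEval_finsetSum]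
  apply Finset.sum_congr rfl
  intro i _
  rw [evalEval_mul, evalEval_C, evalEval_pow, evalEval_X,
    eval_eq_sum_range' (n := H + 1) (Nat.lt_succ_of_le (hH i)), Finset.sum_mul]

lemma secP_eval (S : ℕ) (hS : S ≠ 0) (β H : ℕ) (F : (PowerSeries E)[X][X])
    (hβ : ∀ i ≥ β, F.coeff i = 0) (hH : Bd H F) (x : E) (w : PowerSeries E) :
    (secP S β H F).evalEval (PowerSeries.C x) w =
      sec S (F.evalEval (PowerSeries.C x) (PowerSeries.expand S hS w)) := by
  rw [evalEval_eq F β H hβ hH, map_sum]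
  unfold secP
  rw [evalEval_finsetSum]
  apply Finset.sum_congr rfl
  intro i _
  rw [evalEval_mul, evalEval_C, evalEval_pow, evalEval_X, eval_finsetSum, Finset.sum_mul, map_sum]
  apply Finset.sum_congr rfl
  intro j _
  rw [eval_mul, eval_C, eval_pow, eval_X]
  have e : (F.coeff i).coeff j * PowerSeries.C x ^ j * PowerSeries.expand S hS w ^ i =
      (F.coeff i).coeff j * PowerSeries.expand S hS (PowerSeries.C x ^ j * w ^ i) := by
    rw [map_mul, map_pow, map_pow, PowerSeries.expand_C, mul_assoc]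
  rw [e, sec_mul, mul_assoc]

end Sec

/-! ### evaluation of the transformed relations -/

section Ev

variable {E : Type u} [Field E]

lemma hcr_eval {A : Type*} [CommRing A] (d : ℕ) (g u v : A[X]) (x : A) :
    (hcr d g u v).eval x = ∑ i ∈ range (d + 1), g.coeff i * (u.eval x) ^ i * (v.eval x) ^ (d - i) := by
  unfold hcr
  rw [eval_finsetSum]
  apply Finset.sum_congr rfl
  intro i _
  simp

lemma map_C_eval (P : E[X]) (x : E) :
    (P.map PowerSeries.C).eval (PowerSeries.C x) = PowerSeries.C (P.eval x) := by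
  rw [eval_map, eval₂_at_apply]

lemma nv_eval (β H S : ℕ) (P Q P₁ Q₁ : E[X]) (σ : E →+* PowerSeries E)
    (hP : P = expand E S P₁) (hQ : Q = expand E S Q₁) (G : (PowerSeries E)[X][X]) (hG : Dg β H G)
    (x : E) (hx : Q.eval x ≠ 0) :
    (nv β H P Q (P₁.map σ) (Q₁.map σ) G).evalEval (PowerSeries.C x) (σ x ^ S) =
      PowerSeries.C (Q.eval x) ^ H * σ (Q.eval x) ^ β *
        G.evalEval (PowerSeries.C (P.eval x / Q.eval x)) (σ (P.eval x / Q.eval x)) := by
  have hPv : (P₁.map σ).eval (σ x ^ S) = σ (P.eval x) := by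
    rw [hP, expand_eval, ← map_pow, eval_map, eval₂_at_apply]
  have hQv : (Q₁.map σ).eval (σ x ^ S) = σ (Q.eval x) := by
    rw [hQ, expand_eval, ← map_pow, eval_map, eval₂_at_apply]
  have hPQ : P.eval x = Q.eval x * (P.eval x / Q.eval x) := by
    field_simp
  rw [evalEval_eq G (β + 1) H (fun i hi => coeff_eq_zero_of_natDegree_lt (by
    have := hG.1
    omega)) hG.2]
  unfold nv
  rw [evalEval_finsetSum, Finset.mul_sum]
  apply Finset.sum_congr rfl
  intro j hj
  rw [Finset.mem_range] at hj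
  rw [evalEval_mul, evalEval_mul, evalEval_C, evalEval_pow, evalEval_pow, evalEval_map_C,
    evalEval_map_C, hPv, hQv, hcr_eval, map_C_eval, map_C_eval]
  set x' := P.eval x / Q.eval x with hx'
  rw [hPQ, map_mul, Finset.sum_mul, Finset.sum_mul, Finset.mul_sum]
  apply Finset.sum_congr rfl
  intro i hi
  rw [Finset.mem_range] at hi
  have e1 : (PowerSeries.C (Q.eval x) : PowerSeries E) ^ H =
      PowerSeries.C (Q.eval x) ^ i * PowerSeries.C (Q.eval x) ^ (H - i) := by
    rw [← pow_add]
    congr 1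
    omega
  have e2 : (σ (Q.eval x)) ^ β = σ (Q.eval x) ^ j * σ (Q.eval x) ^ (β - j) := by
    rw [← pow_add]
    congr 1
    omega
  rw [e1, e2, map_mul]
  ring

lemma frP_eval (l s : ℕ) [Fact l.Prime] [CharP E l] (G : (PowerSeries E)[X][X])
    (x : E) (y : PowerSeries E) :
    (frP (l ^ s) G).evalEval (PowerSeries.C x) (y ^ l ^ s) =
      (G.evalEval (PowerSeries.C x) y) ^ l ^ s := by
  have : CharP (PowerSeries E) l :=
    charP_of_injective_ringHom (PowerSeries.C_injective (R := E)) l
  have h2 : G = ∑ i ∈ range (G.natDegree + 1), C (G.coeff i) * X ^ i := as_sum_range_C_mul_X_pow G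
  conv_rhs => rw [h2]
  unfold frP
  rw [evalEval_finsetSum, evalEval_finsetSum, sum_pow_char_pow]
  apply Finset.sum_congr rfl
  intro i _
  rw [evalEval_mul, evalEval_C, evalEval_pow, evalEval_X, evalEval_mul, evalEval_C, evalEval_pow,
    evalEval_X, eval_pow, mul_pow, ← pow_mul, ← pow_mul, mul_comm i]

lemma frP_coeff (S : ℕ) (hS : S ≠ 0) (G : (PowerSeries E)[X][X]) (i : ℕ) :
    (frP S G).coeff i = G.coeff i ^ S := by
  unfold frP
  rw [finsetSum_coeff]
  by_cases h : i < G.natDegree + 1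
  · rw [Finset.sum_eq_single i]
    · rw [coeff_C_mul, coeff_X_pow, if_pos rfl, mul_one]
    · intro b _ hb
      rw [coeff_C_mul, coeff_X_pow, if_neg (Ne.symm hb), mul_zero]
    · intro h'
      exact absurd (Finset.mem_range.mpr h) h'
  · rw [Finset.sum_eq_zero, coeff_eq_zero_of_natDegree_lt (by omega), zero_pow hS]
    intro b hb
    rw [Finset.mem_range] at hb
    rw [coeff_C_mul, coeff_X_pow, if_neg (by omega), mul_zero]

lemma nv_Bd (β H D₀ : ℕ) (P Q : E[X]) (hP : P.natDegree ≤ D₀) (hQ : Q.natDegree ≤ D₀)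
    (P' Q' : (PowerSeries E)[X]) (G : (PowerSeries E)[X][X]) :
    Bd (H * D₀) (nv β H P Q P' Q' G) := by
  unfold nv
  apply Bd.sum
  intro j _
  have h1 : (hcr H (G.coeff j) (P.map PowerSeries.C) (Q.map PowerSeries.C)).natDegree ≤ H * D₀ := by
    unfold hcr
    apply natDegree_sum_le_of_forall_le
    intro i hi
    rw [Finset.mem_range] at hi
    calc _ ≤ (C ((G.coeff j).coeff i) * (P.map PowerSeries.C) ^ i).natDegree +
          ((Q.map PowerSeries.C) ^ (H - i)).natDegree := natDegree_mul_le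
      _ ≤ i * D₀ + (H - i) * D₀ := by
        apply add_le_add
        · refine (natDegree_C_mul_le _ _).trans (natDegree_pow_le.trans ?_)
          exact Nat.mul_le_mul_left _ ((natDegree_map_le).trans hP)
        · refine natDegree_pow_le.trans ?_
          exact Nat.mul_le_mul_left _ ((natDegree_map_le).trans hQ)
      _ = H * D₀ := by
        rw [← Nat.add_mul]
        congr 1
        omega
  have := ((Bd.C h1).mul ((Bd.mapC P').pow j)).mul ((Bd.mapC Q').pow (β - j))
  exact this.mono (by simp)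

lemma nv_deg (β H D₀ : ℕ) (P Q : E[X]) (P' Q' : (PowerSeries E)[X]) (hP : P'.natDegree ≤ D₀)
    (hQ : Q'.natDegree ≤ D₀) (G : (PowerSeries E)[X][X]) :
    (nv β H P Q P' Q' G).natDegree ≤ β * D₀ := by
  unfold nv
  apply natDegree_sum_le_of_forall_le
  intro j hj
  rw [Finset.mem_range] at hj
  calc _ ≤ (C (hcr H (G.coeff j) (P.map PowerSeries.C) (Q.map PowerSeries.C)) *
        (P'.map C) ^ j).natDegree + ((Q'.map C) ^ (β - j)).natDegree := natDegree_mul_le
    _ ≤ j * D₀ + (β - j) * D₀ := by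
      apply add_le_add
      · refine (natDegree_C_mul_le _ _).trans (natDegree_pow_le.trans ?_)
        exact Nat.mul_le_mul_left _ ((natDegree_map_le).trans hP)
      · refine natDegree_pow_le.trans ?_
        exact Nat.mul_le_mul_left _ ((natDegree_map_le).trans hQ)
    _ = β * D₀ := by
      rw [← Nat.add_mul]
      congr 1
      omega

lemma Dv_iff (M : ℕ) (F : (PowerSeries E)[X][X]) :
    Dv M F ↔ C (C ((PowerSeries.X : PowerSeries E) ^ M)) ∣ F := by
  unfold Dv
  rw [C_dvd_iff_dvd_coeff]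
  apply forall_congr'
  intro i
  rw [C_dvd_iff_dvd_coeff]

lemma tw_expand {k : Type u} [Field k] [Algebra k E] (l r s : ℕ) [Fact l.Prime] [CharP E l]
    (hS : l ^ s ≠ 0) (τ : E →ₐ[k] PowerSeries E) (x : E) :
    (tw l r τ x) ^ l ^ s = PowerSeries.expand (l ^ s) hS (tw l (r + s) τ x) := by
  have h1 := MvPowerSeries.map_iterateFrobenius_expand (σ := Unit) (p := l)
    (by exact (Fact.out : l.Prime).ne_zero) (tw l r τ x) s
  rw [← h1]
  have h2 : (MvPowerSeries.map (iterateFrobenius E l s))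
      ((MvPowerSeries.expand (l ^ s) (pow_ne_zero s (Fact.out : l.Prime).ne_zero)) ((tw l r τ) x)) =
      PowerSeries.map (iterateFrobenius E l s) (PowerSeries.expand (l ^ s) hS (tw l r τ x)) := rfl
  rw [h2, PowerSeries.map_expand]
  congr 1
  unfold tw
  rw [RingHom.comp_apply, RingHom.comp_apply]
  ext n
  rw [PowerSeries.coeff_map, PowerSeries.coeff_map, PowerSeries.coeff_map, iterateFrobenius_def,
    iterateFrobenius_def, iterateFrobenius_def, ← pow_mul, ← pow_add]

end Ev

/-- (N5) -/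
theorem fwdP : S_fwdP.{u} := by
  intro l D₀ β s M₁ M' hl
  have hS : l ^ s ≠ 0 := pow_ne_zero _ hl.ne_zero
  refine ⟨M' + l ^ s * M₁, fun r H => ⟨H * D₀ + (β * D₀ + 1) * (l ^ s * H), ?_⟩⟩
  intro k E _ _ _ _ _ τ D hτ P Q P₁ Q₁ hRM hP hQ G a hG ha hred
  set S := l ^ s with hSd
  set σ := tw l r τ with hσ
  set N := nv β H P Q (P₁.map σ) (Q₁.map σ) G with hN
  set F := frP S G with hF
  set K := H * D₀ + (β * D₀ + 1) * (S * H) with hK
  have hPd : P.natDegree ≤ D₀ := by rw [← hRM.deg]; exact le_max_left _ _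
  have hQd : Q.natDegree ≤ D₀ := by rw [← hRM.deg]; exact le_max_right _ _
  have hP₁ : P₁.natDegree ≤ D₀ := by
    rw [hP, natDegree_expand] at hPd
    exact (Nat.le_mul_of_pos_right _ (Nat.pos_of_ne_zero hS)).trans hPd
  have hQ₁ : Q₁.natDegree ≤ D₀ := by
    rw [hQ, natDegree_expand] at hQd
    exact (Nat.le_mul_of_pos_right _ (Nat.pos_of_ne_zero hS)).trans hQd
  have hNd : N.natDegree ≤ β * D₀ :=
    nv_deg β H D₀ P Q _ _ ((natDegree_map_le).trans hP₁) ((natDegree_map_le).trans hQ₁) G
  have hNB : Bd (H * D₀) N := nv_Bd β H D₀ P Q hPd hQd _ _ G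
  have hFc : ∀ i > β, F.coeff i = 0 := by
    intro i hi
    rw [hF, frP_coeff S hS, coeff_eq_zero_of_natDegree_lt (by have := hG.1; omega), zero_pow hS]
  have hFB : Bd (S * H) F := by
    intro i
    rw [hF, frP_coeff S hS]
    exact natDegree_pow_le.trans (Nat.mul_le_mul_left _ (hG.2 i))
  obtain ⟨Qt, Rm, h1, h2, h3⟩ := pdiv β (S * H) F hFc hFB (β * D₀ + 1) (H * D₀) N
    (fun i hi => coeff_eq_zero_of_natDegree_lt (by omega)) hNB
  have hA : ((F.coeff β) ^ (β * D₀ + 1)).map PowerSeries.constantCoeff ≠ 0 := by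
    rw [hF, frP_coeff S hS, Polynomial.map_pow, Polynomial.map_pow]
    apply pow_ne_zero
    apply pow_ne_zero
    have h4 : (red G).coeff β = (G.coeff β).map PowerSeries.constantCoeff := by
      unfold red
      rw [coeff_map]
      rfl
    rw [← h4, hred, coeff_C_mul]
    have h5 : ((X - C (X ^ l ^ r) : E[X][X]) ^ β).coeff β = 1 := by
      have hm : (X - C (X ^ l ^ r) : E[X][X]).Monic := monic_X_sub_C _
      have h6 : ((X - C (X ^ l ^ r) : E[X][X]) ^ β).natDegree = β := by
        rw [hm.natDegree_pow, natDegree_X_sub_C, mul_one]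
      have h7 := (hm.pow β).coeff_natDegree
      rwa [h6] at h7
    rw [h5, mul_one]
    exact ha
  have hRm : C ((F.coeff β) ^ (β * D₀ + 1)) * N - Qt * F = Rm := by
    rw [h1]
    ring
  by_cases hD : Dv M' Rm
  · left
    refine ⟨_, Qt, hA, ?_⟩
    rw [hRm]
    exact hD
  right
  have hβ : 1 ≤ β := by
    by_contra hβ
    apply hD
    intro i j
    rw [h2 i (by omega)]
    simp
  refine ⟨hβ, ?_⟩
  -- the exact power
  classical
  have hex : ∃ v, ¬ Dv v Rm := ⟨M', hD⟩
  obtain ⟨v, hv1, hv2⟩ : ∃ v, Dv v Rm ∧ ¬ Dv (v + 1) Rm ∧ v < M' := by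
    have h4 := Nat.find_spec hex
    have h5 : Nat.find hex ≠ 0 := by
      intro h0
      rw [h0] at h4
      apply h4
      intro i j
      simp
    obtain ⟨v, hv⟩ := Nat.exists_eq_succ_of_ne_zero h5
    refine ⟨v, ?_, ?_, ?_⟩
    · by_contra h6
      have := Nat.find_min' hex h6
      omega
    · rw [hv] at h4
      exact h4
    · have := Nat.find_min' hex hD
      omega
  obtain ⟨Rm', hRm'⟩ := (Dv_iff v Rm).mp hv1
  have hcc : ∀ i j, (Rm.coeff i).coeff j =
      (PowerSeries.X : PowerSeries E) ^ v * (Rm'.coeff i).coeff j := by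
    intro i j
    rw [hRm', coeff_C_mul, coeff_C_mul]
  have hXv : (PowerSeries.X : PowerSeries E) ^ v ≠ 0 := pow_ne_zero _ PowerSeries.X_ne_zero
  have hR'β : ∀ i ≥ β, Rm'.coeff i = 0 := by
    intro i hi
    ext1 j
    have := hcc i j
    rw [h2 i hi, coeff_zero] at this
    rw [coeff_zero]
    exact (mul_eq_zero.mp this.symm).resolve_left hXv
  have hR'B : Bd K Rm' := by
    intro i
    rw [natDegree_le_iff_coeff_eq_zero]
    intro j hj
    have := hcc i j
    rw [coeff_eq_zero_of_natDegree_lt (lt_of_le_of_lt (h3 i) hj)] at this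
    exact (mul_eq_zero.mp this.symm).resolve_left hXv
  have hne : ∃ i j, PowerSeries.constantCoeff ((Rm'.coeff i).coeff j) ≠ 0 := by
    by_contra hcon
    push Not at hcon
    apply hv2.1
    intro i j
    rw [hcc, pow_succ]
    exact mul_dvd_mul_left _ (PowerSeries.X_dvd_iff.mpr (hcon i j))
  refine ⟨secP S β K Rm', secP_Dg S β K Rm', ?_, ?_⟩
  · obtain ⟨i, j, hij⟩ := hne
    have hi : i < β := by
      by_contra h
      rw [hR'β i (by omega)] at hij
      simp at hij
    have hj : j ≤ K := by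
      by_contra h
      rw [coeff_eq_zero_of_natDegree_lt (lt_of_le_of_lt (hR'B i) (by omega))] at hij
      simp at hij
    intro h0
    have h4 : ((red (secP S β K Rm')).coeff i).coeff j =
        PowerSeries.constantCoeff (((secP S β K Rm').coeff i).coeff j) := by
      unfold red
      rw [coeff_map, coe_mapRingHom, coeff_map]
    rw [h0, secP_coeff S β K Rm' i j hi hj, sec_const] at h4
    apply hij
    rw [← h4]
    simp
  · intro x hx hx1 hx2
    unfold Va at hx1 hx2 ⊢
    rw [secP_eval S hS β K Rm' hR'β hR'B]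
    apply sec_dvd S M₁ hS
    have hRmx : (PowerSeries.X : PowerSeries E) ^ (M' + S * M₁) ∣
        Rm.evalEval (PowerSeries.C x) (σ x ^ S) := by
      rw [← hRm, evalEval_sub, evalEval_mul, evalEval_mul]
      apply dvd_sub
      · apply Dvd.dvd.mul_left
        rw [hN, nv_eval β H S P Q P₁ Q₁ σ hP hQ G hG x hx]
        exact Dvd.dvd.mul_left hx2 _
      · apply Dvd.dvd.mul_left
        rw [hF, frP_eval l s G x (σ x)]
        exact hx1.trans (dvd_pow_self _ hS)
    rw [hσ, tw_expand l r s hS] at hRmx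
    rw [hRm', evalEval_mul, evalEval_C, eval_C] at hRmx
    have e : M' + S * M₁ = v + (M' - v + S * M₁) := by omega
    rw [e, pow_add] at hRmx
    have h5 := (mul_dvd_mul_iff_left hXv).mp hRmx
    exact (pow_dvd_pow _ (by omega)).trans h5

end Pool.Agent.Q246.SP
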