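import Pool.Agent.Q246.SP.Hc

/-!
# Interpolation (V2)
-/

namespace Pool.Agent.Q246.SP

open Finset Polynomial
open Pool.Agent.Q41.SP Pool.Agent.Q41.SU

universe u

lemma exists_semilin {E V : Type*} [Field E] [AddCommGroup V] [Module E V] (v : V) (hv : v ≠ 0) :
    ∃ f : V →+ E, f v ≠ 0 ∧ ∀ (a : E) (b : V), f (a • b) = a * f b := by
  by_contra hcon
  push Not at hcon
  apply hv
  rw [← Module.forall_dual_apply_eq_zero_iff E v]
  intro f
  by_contra hf
  obtain ⟨a, b, hab⟩ := hcon (f : V →+ E) hf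
  exact hab (f.map_smul a b)

lemma exists_semilin' {E : Type*} [Field E] (φ : E →+* E) (v : E) (hv : v ≠ 0) :
    ∃ f : E →+ E, f v ≠ 0 ∧ ∀ a b : E, f (φ a * b) = a * f b := by
  obtain ⟨f, h1, h2⟩ := @exists_semilin E E _ _ (Module.compHom E φ) v hv
  exact ⟨f, h1, h2⟩

section

variable {E : Type u} [Field E]

/-- numerator of `μ⁻¹ ∘ (P / Q) ∘ μ` -/
noncomputable def cN (d : ℕ) (μ : Mb E) (P Q : E[X]) : E[X] :=
  C μ.δ * hcm d P (C μ.α * X + C μ.β) (C μ.γ * X + C μ.δ) -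
    C μ.β * hcm d Q (C μ.α * X + C μ.β) (C μ.γ * X + C μ.δ)

/-- denominator of `μ⁻¹ ∘ (P / Q) ∘ μ` -/
noncomputable def cD' (d : ℕ) (μ : Mb E) (P Q : E[X]) : E[X] :=
  C μ.α * hcm d Q (C μ.α * X + C μ.β) (C μ.γ * X + C μ.δ) -
    C μ.γ * hcm d P (C μ.α * X + C μ.β) (C μ.γ * X + C μ.δ)

lemma lin_coprime (μ : Mb E) (hμ : μ.det ≠ 0) :
    IsCoprime (C μ.α * X + C μ.β : E[X]) (C μ.γ * X + C μ.δ) := by
  refine ⟨C (-μ.γ * μ.det⁻¹), C (μ.α * μ.det⁻¹), ?_⟩
  have h : C μ.det * C (μ.det⁻¹) = (1 : E[X]) := by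
    rw [← C_mul, mul_inv_cancel₀ hμ, C_1]
  rw [← h]
  unfold Mb.det
  simp only [C_mul, C_neg, C_sub]
  ring

lemma cN_cD (d : ℕ) (μ : Mb E) (P Q : E[X]) :
    C μ.α * cN d μ P Q + C μ.β * cD' d μ P Q =
      C μ.det * hcm d P (C μ.α * X + C μ.β) (C μ.γ * X + C μ.δ) ∧
    C μ.γ * cN d μ P Q + C μ.δ * cD' d μ P Q =
      C μ.det * hcm d Q (C μ.α * X + C μ.β) (C μ.γ * X + C μ.δ) := by
  unfold cN cD' Mb.det
  constructor <;> (simp only [C_mul, C_sub]; ring)

lemma cN_rm (d : ℕ) (μ : Mb E) (hμ : μ.det ≠ 0) (P Q : E[X]) (h : RM d P Q) :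
    RM d (cN d μ P Q) (cD' d μ P Q) := by
  obtain ⟨e1, e2⟩ := cN_cD d μ P Q
  have hA : ∀ F : E[X], (hcm d F (C μ.α * X + C μ.β) (C μ.γ * X + C μ.δ)).natDegree ≤ d := by
    intro F
    have := hcm_natDegree d F _ _ 1 (lin_natDegree μ.α μ.β) (lin_natDegree μ.γ μ.δ)
    rwa [mul_one] at this
  apply rm_of
  · obtain ⟨a, b, hab⟩ := hcm_coprime h (lin_coprime μ hμ)
    refine ⟨C μ.det⁻¹ * (a * C μ.α + b * C μ.γ), C μ.det⁻¹ * (a * C μ.β + b * C μ.δ), ?_⟩
    have e3 : C μ.det⁻¹ * (a * C μ.α + b * C μ.γ) * cN d μ P Q +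
        C μ.det⁻¹ * (a * C μ.β + b * C μ.δ) * cD' d μ P Q =
        C μ.det⁻¹ * (a * (C μ.α * cN d μ P Q + C μ.β * cD' d μ P Q) +
          b * (C μ.γ * cN d μ P Q + C μ.δ * cD' d μ P Q)) := by ring
    rw [e3, e1, e2]
    have e4 : C μ.det⁻¹ * (a * (C μ.det * hcm d P (C μ.α * X + C μ.β) (C μ.γ * X + C μ.δ)) +
        b * (C μ.det * hcm d Q (C μ.α * X + C μ.β) (C μ.γ * X + C μ.δ))) =
        (C μ.det⁻¹ * C μ.det) * (a * hcm d P (C μ.α * X + C μ.β) (C μ.γ * X + C μ.δ) +
          b * hcm d Q (C μ.α * X + C μ.β) (C μ.γ * X + C μ.δ)) := by ring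
    rw [e4, hab, ← C_mul, inv_mul_cancel₀ hμ, C_1, one_mul]
  · exact (natDegree_sub_le _ _).trans (max_le ((natDegree_C_mul_le _ _).trans (hA P))
      ((natDegree_C_mul_le _ _).trans (hA Q)))
  · exact (natDegree_sub_le _ _).trans (max_le ((natDegree_C_mul_le _ _).trans (hA Q))
      ((natDegree_C_mul_le _ _).trans (hA P)))
  · by_contra hcon
    push Not at hcon
    have hc : ∀ F : E[X], (hcm d F (C μ.α * X + C μ.β) (C μ.γ * X + C μ.δ)).coeff d =
        fm d F μ.α μ.γ := by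
      intro F
      have := hcm_coeff d F _ _ 1 (lin_natDegree μ.α μ.β) (lin_natDegree μ.γ μ.δ)
      rw [mul_one] at this
      rw [this]
      simp
    have h1 := congrArg (fun F => F.coeff d) e1
    have h2 := congrArg (fun F => F.coeff d) e2
    simp only [coeff_add, coeff_C_mul] at h1 h2
    rw [hcon.1, hcon.2, mul_zero, mul_zero, add_zero, hc] at h1 h2
    have h3 := (mul_eq_zero.mp h1.symm).resolve_left hμ
    have h4 := (mul_eq_zero.mp h2.symm).resolve_left hμ
    rcases fm_ne h μ.α μ.γ (by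
      by_contra h5
      push Not at h5
      apply hμ
      unfold Mb.det
      rw [h5.1, h5.2]
      ring) with h5 | h5
    · exact h5 h3
    · exact h5 h4

/-- criterion for a conjugation -/
lemma cj_of (d : ℕ) (μ : Mb E) (hμ : μ.det ≠ 0) (P Q p' q' : E[X]) (h : RM d P Q)
    (hco : IsCoprime p' q') (he : cN d μ P Q * q' = p' * cD' d μ P Q) :
    Cj d μ P Q p' q' := by
  refine ⟨hμ, ?_, ?_⟩
  · have h1 := cN_rm d μ hμ P Q h
    -- proportional
    have h2 : cN d μ P Q ∣ p' := by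
      have : cN d μ P Q ∣ p' * cD' d μ P Q := ⟨q', he.symm⟩
      exact h1.co.dvd_of_dvd_mul_right this
    have h3 : p' ∣ cN d μ P Q := by
      have : p' ∣ cN d μ P Q * q' := ⟨cD' d μ P Q, he⟩
      exact hco.dvd_of_dvd_mul_right this
    have h4 : cD' d μ P Q ∣ q' := by
      have : cD' d μ P Q ∣ q' * cN d μ P Q := ⟨p', by rw [mul_comm, he, mul_comm]⟩
      exact h1.co.symm.dvd_of_dvd_mul_right this
    have h5 : q' ∣ cD' d μ P Q := by
      have : q' ∣ cD' d μ P Q * p' := ⟨cN d μ P Q, by rw [mul_comm, ← he, mul_comm]⟩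
      exact hco.symm.dvd_of_dvd_mul_right this
    have h6 : p'.natDegree = (cN d μ P Q).natDegree := by
      rcases eq_or_ne p' 0 with h0 | h0
      · rw [h0] at h3
        rw [h0, zero_dvd_iff.mp h3]
      · have h0' : cN d μ P Q ≠ 0 := by
          intro h7
          rw [h7] at h2
          exact h0 (zero_dvd_iff.mp h2)
        exact le_antisymm (natDegree_le_of_dvd h3 h0') (natDegree_le_of_dvd h2 h0)
    have h7 : q'.natDegree = (cD' d μ P Q).natDegree := by
      rcases eq_or_ne q' 0 with h0 | h0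
      · rw [h0] at h5
        rw [h0, zero_dvd_iff.mp h5]
      · have h0' : cD' d μ P Q ≠ 0 := by
          intro h7
          rw [h7] at h4
          exact h0 (zero_dvd_iff.mp h4)
        exact le_antisymm (natDegree_le_of_dvd h5 h0') (natDegree_le_of_dvd h4 h0)
    exact ⟨hco, by rw [h6, h7, h1.deg]⟩
  · unfold cN cD' at he
    linear_combination he

end

/-- (V2) -/
theorem intpP : S_intpP.{u} := by
  classical
  intro l K d E _ _ _ P Q hRM μ T hμ hT hw
  set φ := iterateFrobenius E l K with hφ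
  have hφd : ∀ w, φ w = w ^ l ^ K := fun w => iterateFrobenius_def l K w
  have hφi : Function.Injective φ := φ.injective
  have hrm := cN_rm d μ hμ P Q hRM
  obtain ⟨e, he, hec⟩ : ∃ e : E, e ≠ 0 ∧ (e = (cN d μ P Q).coeff d ∨ e = (cD' d μ P Q).coeff d) := by
    rcases rm_coeff hrm with h | h
    · exact ⟨_, h, Or.inl rfl⟩
    · exact ⟨_, h, Or.inr rfl⟩
  obtain ⟨f, hf, hfs⟩ := exists_semilin' φ e he
  -- the two polynomials
  let lp : E[X] → E[X] := fun A => ∑ i ∈ range (d + 1), C (f (A.coeff i)) * X ^ i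
  have hlpc : ∀ A : E[X], ∀ i ≤ d, (lp A).coeff i = f (A.coeff i) := by
    intro A i hi
    simp only [lp]
    rw [finsetSum_coeff, Finset.sum_eq_single i]
    · rw [coeff_C_mul, coeff_X_pow, if_pos rfl, mul_one]
    · intro b _ hb
      rw [coeff_C_mul, coeff_X_pow, if_neg (Ne.symm hb), mul_zero]
    · intro h
      exact absurd (Finset.mem_range.mpr (by omega)) h
  have hlpd : ∀ A : E[X], (lp A).natDegree ≤ d := by
    intro A
    simp only [lp]
    apply natDegree_sum_le_of_forall_le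
    intro i hi
    rw [Finset.mem_range] at hi
    exact (natDegree_C_mul_X_pow_le _ _).trans (by omega)
  have hlpe : ∀ A : E[X], A.natDegree ≤ d → ∀ w, (lp A).eval w = f (A.eval (φ w)) := by
    intro A hA w
    simp only [lp]
    rw [eval_finsetSum, eval_eq_sum_range' (n := d + 1) (Nat.lt_succ_of_le hA), map_sum]
    apply Finset.sum_congr rfl
    intro i _
    rw [eval_mul, eval_C, eval_pow, eval_X, mul_comm (A.coeff i), ← map_pow, hfs, mul_comm]
  have hmain : ∀ w ∈ T, (cN d μ P Q).eval (φ w) * ((lp (cD' d μ P Q)).map φ).eval (φ w) =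
      ((lp (cN d μ P Q)).map φ).eval (φ w) * (cD' d μ P Q).eval (φ w) := by
    intro w hwT
    obtain ⟨h1, h2, w', h3, h4⟩ := hw w hwT
    rw [← hφd] at h1 h2 h4
    rw [← hφd] at h3 h4
    set x := μ.app (φ w) with hx
    have hA : ∀ F : E[X], F.natDegree ≤ d →
        (hcm d F (C μ.α * X + C μ.β) (C μ.γ * X + C μ.δ)).eval (φ w) =
        μ.den (φ w) ^ d * F.eval x := by
      intro F hF
      rw [hcm_eval]
      have e1 : (C μ.α * X + C μ.β : E[X]).eval (φ w) = μ.α * φ w + μ.β := by simp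
      have e2 : (C μ.γ * X + C μ.δ : E[X]).eval (φ w) = μ.den (φ w) := by
        simp [Mb.den]
      rw [e1, e2, fm_eq d F hF _ _ h1]
      rfl
    have hN : (cN d μ P Q).eval (φ w) = μ.den (φ w) ^ d * (μ.δ * P.eval x - μ.β * Q.eval x) := by
      unfold cN
      rw [eval_sub, eval_mul, eval_mul, eval_C, eval_C, hA P (rm_left hRM), hA Q (rm_right hRM)]
      ring
    have hD : (cD' d μ P Q).eval (φ w) = μ.den (φ w) ^ d * (μ.α * Q.eval x - μ.γ * P.eval x) := by
      unfold cD'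
      rw [eval_sub, eval_mul, eval_mul, eval_C, eval_C, hA P (rm_left hRM), hA Q (rm_right hRM)]
      ring
    have h5 : P.eval x * (μ.γ * φ w' + μ.δ) = Q.eval x * (μ.α * φ w' + μ.β) := by
      unfold Mb.app Mb.den at h4
      unfold Mb.den at h3
      rw [div_eq_div_iff h2 h3] at h4
      linear_combination h4
    have h6 : (cN d μ P Q).eval (φ w) = φ w' * (cD' d μ P Q).eval (φ w) := by
      rw [hN, hD]
      linear_combination (μ.den (φ w)) ^ d * h5
    have h7 : (lp (cN d μ P Q)).eval w = w' * (lp (cD' d μ P Q)).eval w := by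
      rw [hlpe _ (rm_left hrm), hlpe _ (rm_right hrm), h6, hfs]
    rw [eval_map, eval_map, eval₂_at_apply, eval₂_at_apply, h7, h6, map_mul]
    ring
  have hzero : cN d μ P Q * (lp (cD' d μ P Q)).map φ = (lp (cN d μ P Q)).map φ * cD' d μ P Q := by
    rw [← sub_eq_zero]
    by_contra hne
    have hdeg : (cN d μ P Q * (lp (cD' d μ P Q)).map φ -
        (lp (cN d μ P Q)).map φ * cD' d μ P Q).natDegree ≤ 2 * d := by
      refine (natDegree_sub_le _ _).trans (max_le ?_ ?_)
      · refine natDegree_mul_le.trans ?_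
        have h1 := rm_left hrm
        have h2 := (natDegree_map_le (f := φ)).trans (hlpd (cD' d μ P Q))
        omega
      · refine natDegree_mul_le.trans ?_
        have h1 := rm_right hrm
        have h2 := (natDegree_map_le (f := φ)).trans (hlpd (cN d μ P Q))
        omega
    have hroots : T.image φ ⊆ (cN d μ P Q * (lp (cD' d μ P Q)).map φ -
        (lp (cN d μ P Q)).map φ * cD' d μ P Q).roots.toFinset := by
      intro c hc
      obtain ⟨w, hwT, rfl⟩ := mem_image.mp hc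
      rw [Multiset.mem_toFinset, mem_roots hne, IsRoot.def, eval_sub, eval_mul, eval_mul,
        hmain w hwT, sub_self]
    have h1 := card_le_card hroots
    rw [card_image_of_injective _ hφi] at h1
    have h2 := (Multiset.toFinset_card_le _).trans ((card_roots' (cN d μ P Q *
      (lp (cD' d μ P Q)).map φ - (lp (cN d μ P Q)).map φ * cD' d μ P Q)).trans hdeg)
    omega
  -- division by the greatest common divisor
  have hne : lp (cN d μ P Q) ≠ 0 ∨ lp (cD' d μ P Q) ≠ 0 := by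
    rcases hec with h | h
    · left
      intro h0
      have := hlpc (cN d μ P Q) d le_rfl
      rw [h0, coeff_zero, ← h] at this
      exact hf this.symm
    · right
      intro h0
      have := hlpc (cD' d μ P Q) d le_rfl
      rw [h0, coeff_zero, ← h] at this
      exact hf this.symm
  obtain ⟨g, P₀, Q₀, hg, hP₀, hQ₀, hco⟩ : ∃ g P₀ Q₀ : E[X], g ≠ 0 ∧ lp (cN d μ P Q) = g * P₀ ∧
      lp (cD' d μ P Q) = g * Q₀ ∧ IsCoprime P₀ Q₀ := by
    obtain ⟨P₀, Q₀, h1, h2, h3⟩ := extract_gcd (lp (cN d μ P Q)) (lp (cD' d μ P Q))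
    refine ⟨_, P₀, Q₀, ?_, h1, h2, (gcd_isUnit_iff _ _).mp h3⟩
    intro h0
    rw [_root_.gcd_eq_zero_iff] at h0
    rcases hne with h | h
    · exact h h0.1
    · exact h h0.2
  refine ⟨P₀, Q₀, ?_⟩
  apply cj_of d μ hμ P Q _ _ hRM
  · exact hco.map (mapRingHom φ)
  · rw [hP₀, hQ₀, Polynomial.map_mul, Polynomial.map_mul] at hzero
    have hg' : g.map φ ≠ 0 := (Polynomial.map_ne_zero_iff hφi).mpr hg
    apply mul_left_cancel₀ hg'
    linear_combination hzero

end Pool.Agent.Q246.SP
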