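import Pool.Agent.Q246.SP.Hc

/-!
# A segment in a frame (V5)
-/

namespace Pool.Agent.Q246.SP

open Finset Polynomial
open Pool.Agent.Q41.SP Pool.Agent.Q41.SU

universe u

section

variable {E : Type u} [Field E]

/-- `μ (P¹ (E ^ (l ^ K)))` is mapped into itself -/
lemma ov_step (l K D : ℕ) [Fact l.Prime] [CharP E l] (μ : Mb E) (P Q P₀ Q₀ : E[X])
    (hRM : RM D P Q) (hOv : Ov l K D μ P Q P₀ Q₀) (x : E) (hx : Q.eval x ≠ 0)
    (hs : Sub l K μ x ∨ μ.γ * x = μ.α) :
    Sub l K μ (P.eval x / Q.eval x) ∨ μ.γ * (P.eval x / Q.eval x) = μ.α := by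
  obtain ⟨hμ, hrm, heq⟩ := hOv
  set φ := iterateFrobenius E l K with hφ
  have hφd : ∀ w, φ w = w ^ l ^ K := fun w => iterateFrobenius_def l K w
  obtain ⟨a, b, hab, he⟩ : ∃ a b : E, (a ≠ 0 ∨ b ≠ 0) ∧
      P.eval x * (μ.γ * φ a + μ.δ * φ b) = Q.eval x * (μ.α * φ a + μ.β * φ b) := by
    rcases hs with ⟨w, hw1, hw2⟩ | hinf
    · rw [← hφd] at hw1 hw2
      have hA : ∀ F : E[X], F.natDegree ≤ D →
          (hcm D F (C μ.α * X + C μ.β) (C μ.γ * X + C μ.δ)).eval (φ w) =
          μ.den (φ w) ^ D * F.eval x := by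
        intro F hF
        rw [hcm_eval]
        have e1 : (C μ.α * X + C μ.β : E[X]).eval (φ w) = μ.α * φ w + μ.β := by simp
        have e2 : (C μ.γ * X + C μ.δ : E[X]).eval (φ w) = μ.den (φ w) := by
          simp [Mb.den]
        rw [e1, e2, fm_eq D F hF _ _ hw1, hw2]
        rfl
      have h1 := congrArg (Polynomial.eval (φ w)) heq
      simp only [eval_mul, eval_add, eval_C] at h1
      rw [hA P (rm_left hRM), hA Q (rm_right hRM), eval_map, eval_map, eval₂_at_apply,
        eval₂_at_apply] at h1
      refine ⟨P₀.eval w, Q₀.eval w, ?_, ?_⟩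
      · by_contra hcon
        push Not at hcon
        obtain ⟨s, t, hst⟩ := hrm.co
        have h2 := congrArg (Polynomial.eval (φ w)) hst
        rw [eval_add, eval_mul, eval_mul, eval_map, eval_map, eval₂_at_apply,
          eval₂_at_apply, hcon.1, hcon.2, map_zero, mul_zero, mul_zero, add_zero, eval_one] at h2
        exact zero_ne_one h2
      · apply mul_left_cancel₀ (pow_ne_zero D hw1)
        linear_combination h1
    · have hγ : μ.γ ≠ 0 := by
        intro h0
        apply hμ
        unfold Mb.det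
        rw [h0] at hinf ⊢
        rw [zero_mul] at hinf
        rw [← hinf]
        ring
      have hxx : x = μ.α / μ.γ := by
        rw [← hinf]
        field_simp
      have hdeg : ∀ F : E[X], (hcm D F (C μ.α * X + C μ.β) (C μ.γ * X + C μ.δ)).natDegree ≤ D := by
        intro F
        have := hcm_natDegree D F _ _ 1 (lin_natDegree μ.α μ.β) (lin_natDegree μ.γ μ.δ)
        rwa [mul_one] at this
      have hc : ∀ F : E[X], F.natDegree ≤ D →
          (hcm D F (C μ.α * X + C μ.β) (C μ.γ * X + C μ.δ)).coeff D = μ.γ ^ D * F.eval x := by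
        intro F hF
        have := hcm_coeff D F _ _ 1 (lin_natDegree μ.α μ.β) (lin_natDegree μ.γ μ.δ)
        rw [mul_one] at this
        rw [this, hxx, ← fm_eq D F hF _ _ hγ]
        simp
      have h1 := congrArg (fun F : E[X] => F.coeff (D + D)) heq
      have hl : ∀ s t : E, (C s * P₀.map φ + C t * Q₀.map φ).natDegree ≤ D := by
        intro s t
        exact (natDegree_add_le _ _).trans (max_le
          ((natDegree_C_mul_le _ _).trans (rm_left hrm))
          ((natDegree_C_mul_le _ _).trans (rm_right hrm)))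
      rw [coeff_mul_add_eq_of_natDegree_le (hdeg P) (hl _ _),
        coeff_mul_add_eq_of_natDegree_le (hdeg Q) (hl _ _), hc P (rm_left hRM),
        hc Q (rm_right hRM), coeff_add, coeff_add, coeff_C_mul, coeff_C_mul, coeff_C_mul,
        coeff_C_mul, coeff_map, coeff_map] at h1
      refine ⟨P₀.coeff D, Q₀.coeff D, ?_, ?_⟩
      · rcases rm_coeff hrm with h2 | h2
        · left
          intro h3
          rw [coeff_map, h3, map_zero] at h2
          exact h2 rfl
        · right
          intro h3
          rw [coeff_map, h3, map_zero] at h2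
          exact h2 rfl
      · apply mul_left_cancel₀ (pow_ne_zero D hγ)
        linear_combination h1
  have hne : μ.γ * φ a + μ.δ * φ b ≠ 0 := by
    intro h0
    rw [h0, mul_zero] at he
    have h1 := (mul_eq_zero.mp he.symm).resolve_left hx
    have h2 : μ.det * φ a = 0 := by
      unfold Mb.det
      linear_combination μ.δ * h1 - μ.β * h0
    have h3 : μ.det * φ b = 0 := by
      unfold Mb.det
      linear_combination μ.α * h0 - μ.γ * h1
    have h4 := (mul_eq_zero.mp h2).resolve_left hμ
    have h5 := (mul_eq_zero.mp h3).resolve_left hμ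
    rw [map_eq_zero] at h4 h5
    rcases hab with h | h
    · exact h h4
    · exact h h5
  have he' : P.eval x / Q.eval x = (μ.α * φ a + μ.β * φ b) / (μ.γ * φ a + μ.δ * φ b) := by
    rw [div_eq_div_iff hx hne, he]
    ring
  rw [he']
  by_cases hb : b = 0
  · right
    rw [hb, map_zero, mul_zero, mul_zero, add_zero, add_zero]
    rw [hb, map_zero, mul_zero, add_zero] at hne
    have h1 : φ a ≠ 0 := fun h => hne (by rw [h, mul_zero])
    have h2 : μ.γ ≠ 0 := fun h => hne (by rw [h, zero_mul])
    field_simp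
  · left
    have hb' : φ b ≠ 0 := by
      rw [Ne, map_eq_zero]
      exact hb
    refine ⟨a / b, ?_, ?_⟩
    · rw [← hφd, map_div₀]
      unfold Mb.den
      intro h0
      apply hne
      field_simp at h0
      linear_combination h0
    · rw [← hφd, map_div₀]
      unfold Mb.app Mb.den
      field_simp

end

/-- (V5) -/
theorem segP (hit : S_itP.{u}) : S_segP.{u} := by
  classical
  intro l K d m E _ _ _ p q P₀ Q₀ μ hd hRM hm hOv n x hseg W hW hWs
  obtain ⟨hRMm, hS, -⟩ := hit E d p q hd hRM m
  set P := (itr d p q m).1 with hP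
  set Q := (itr d p q m).2 with hQ
  have hstep : ∀ i, i + m < n → Q.eval (x i) ≠ 0 ∧ x (i + m) = P.eval (x i) / Q.eval (x i) :=
    fun i hi => hS n x hseg i hi
  have hsegm : ∀ a N, (∀ j < N, a + j * m < n) → Seg P Q N (fun j => x (a + j * m)) := by
    intro a N haN
    refine ⟨?_, ?_⟩
    · intro i hi j hj hij
      have h1 := hseg.inj _ (haN i hi) _ (haN j hj) hij
      have h2 : i * m = j * m := by omega
      exact Nat.eq_of_mul_eq_mul_right (by omega) h2
    · intro i hi
      have h1 : a + (i + 1) * m = (a + i * m) + m := by ring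
      have h2 := hstep (a + i * m) (by rw [← h1]; exact haN (i + 1) hi)
      refine ⟨h2.1, ?_⟩
      rw [h1]
      exact h2.2
  rcases W.eq_empty_or_nonempty with rfl | hWne
  · refine ⟨0, 0, Nat.zero_le _, hsegm 0 0 (fun j hj => absurd hj (by omega)),
      fun j hj => absurd hj (by omega), ?_⟩
    simp
  -- residue class
  obtain ⟨c, hc, hcard⟩ : ∃ c < m, W.card ≤ m * (W.filter fun i => i % m = c).card := by
    by_contra hcon
    push Not at hcon
    have h1 : W.card = ∑ c ∈ range m, (W.filter fun i => i % m = c).card :=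
      card_eq_sum_card_fiberwise (fun i _ => by
        rw [Finset.mem_coe, Finset.mem_range]
        exact Nat.mod_lt _ (by omega))
    have h2 : ∑ c ∈ range m, m * (W.filter fun i => i % m = c).card < ∑ c ∈ range m, W.card := by
      apply sum_lt_sum_of_nonempty
      · exact ⟨0, Finset.mem_range.mpr (by omega)⟩
      · intro c hc
        exact hcon c (Finset.mem_range.mp hc)
    rw [← Finset.mul_sum, ← h1, sum_const, card_range, smul_eq_mul] at h2
    exact lt_irrefl _ h2
  set Wc := W.filter fun i => i % m = c with hWc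
  have hWcne : Wc.Nonempty := by
    rw [← card_pos]
    have h1 := hWne.card_pos
    by_contra h2
    have h3 : Wc.card = 0 := by omega
    rw [h3, mul_zero] at hcard
    omega
  set i₁ := Wc.min' hWcne with hi₁
  have hi₁W : i₁ ∈ Wc := Wc.min'_mem hWcne
  have hi₁W' : i₁ ∈ W := (mem_filter.mp hi₁W).1
  have hi₁n : i₁ < n := Finset.mem_range.mp (hW hi₁W')
  have hform : ∀ i ∈ Wc, ∃ j, i = i₁ + j * m := by
    intro i hi
    have h1 : i₁ ≤ i := Wc.min'_le i hi
    have h2 : i % m = c := (mem_filter.mp hi).2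
    have h3 : i₁ % m = c := (mem_filter.mp hi₁W).2
    have h4 : m ∣ i - i₁ := (Nat.modEq_iff_dvd' h1).mp (by rw [Nat.ModEq, h2, h3])
    obtain ⟨j, hj⟩ := h4
    refine ⟨j, ?_⟩
    have h5 : m * j = j * m := mul_comm _ _
    omega
  have hall : ∀ j, i₁ + j * m < n → Sub l K μ (x (i₁ + j * m)) ∨
      μ.γ * x (i₁ + j * m) = μ.α := by
    intro j
    induction j with
    | zero =>
      intro _
      left
      simpa using hWs i₁ hi₁W'
    | succ j ih =>
      intro hj
      have h1 : i₁ + (j + 1) * m = (i₁ + j * m) + m := by ring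
      rw [h1] at hj ⊢
      obtain ⟨h2, h3⟩ := hstep (i₁ + j * m) hj
      rw [h3]
      exact ov_step l K (d ^ m) μ P Q P₀ Q₀ hRMm hOv _ h2 (ih (by omega))
  obtain ⟨N₁, hN₁, hN₁n⟩ : ∃ N₁, (∀ j, j < N₁ ↔ i₁ + j * m < n) ∧ N₁ ≤ n := by
    refine ⟨(n - 1 - i₁) / m + 1, ?_, ?_⟩
    · intro j
      rw [Nat.lt_succ_iff, Nat.le_div_iff_mul_le (by omega)]
      omega
    · have := Nat.div_le_self (n - 1 - i₁) m
      omega
  set A := (range N₁).filter fun j => i₁ + j * m ∈ W with hA
  have hWcA : Wc.card ≤ A.card := by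
    have h1 : Wc ⊆ A.image fun j => i₁ + j * m := by
      intro i hi
      obtain ⟨j, hj⟩ := hform i hi
      have hiW : i ∈ W := (mem_filter.mp hi).1
      rw [mem_image]
      refine ⟨j, mem_filter.mpr ⟨Finset.mem_range.mpr ((hN₁ j).mpr ?_), ?_⟩, hj.symm⟩
      · rw [← hj]
        exact Finset.mem_range.mp (hW hiW)
      · rw [← hj]
        exact hiW
    exact (card_le_card h1).trans card_image_le
  have hfin : ∀ cnt : ℕ, A.card ≤ 2 * cnt → (W.card : ℝ) ≤ 2 * m * (cnt : ℝ) := by
    intro cnt hcnt
    have h1 : W.card ≤ 2 * m * cnt := by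
      calc W.card ≤ m * Wc.card := hcard
        _ ≤ m * (2 * cnt) := Nat.mul_le_mul_left _ (hWcA.trans hcnt)
        _ = 2 * m * cnt := by ring
    exact_mod_cast h1
  by_cases hsub : ∀ j < N₁, Sub l K μ (x (i₁ + j * m))
  · refine ⟨i₁, N₁, hN₁n, hsegm i₁ N₁ (fun j hj => (hN₁ j).mp hj), hsub, ?_⟩
    convert hfin A.card (by omega)
  · push Not at hsub
    obtain ⟨j₀, hj₀, hj₀s⟩ := hsub
    have hinf : μ.γ * x (i₁ + j₀ * m) = μ.α := (hall j₀ ((hN₁ j₀).mp hj₀)).resolve_left hj₀s
    have hγ : μ.γ ≠ 0 := by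
      intro h0
      apply hOv.det
      unfold Mb.det
      rw [h0, zero_mul] at hinf
      rw [h0, ← hinf]
      ring
    have hoth : ∀ j < N₁, j ≠ j₀ → Sub l K μ (x (i₁ + j * m)) := by
      intro j hj hne
      rcases hall j ((hN₁ j).mp hj) with h | h
      · exact h
      · exfalso
        apply hne
        have h1 : x (i₁ + j * m) = x (i₁ + j₀ * m) := by
          apply mul_left_cancel₀ hγ
          rw [h, hinf]
        have h2 := hseg.inj _ ((hN₁ j).mp hj) _ ((hN₁ j₀).mp hj₀) h1
        have h3 : j * m = j₀ * m := by omega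
        exact Nat.eq_of_mul_eq_mul_right (by omega) h3
    set A₁ := (range j₀).filter fun j => i₁ + j * m ∈ W with hA₁
    set A₂ := (range (N₁ - j₀ - 1)).filter fun j => (i₁ + (j₀ + 1) * m) + j * m ∈ W with hA₂
    have hAc : A.card ≤ A₁.card + A₂.card := by
      have h1 : A ⊆ A₁ ∪ A₂.image fun j => j₀ + 1 + j := by
        intro j hj
        obtain ⟨hj1, hj2⟩ := mem_filter.mp hj
        rw [Finset.mem_range] at hj1
        have hjne : j ≠ j₀ := by
          rintro rfl
          exact hj₀s (hWs _ hj2)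
        rw [mem_union]
        rcases lt_or_gt_of_ne hjne with h | h
        · left
          exact mem_filter.mpr ⟨Finset.mem_range.mpr h, hj2⟩
        · right
          rw [mem_image]
          refine ⟨j - j₀ - 1, mem_filter.mpr ⟨Finset.mem_range.mpr (by omega), ?_⟩, by omega⟩
          have h2 : i₁ + (j₀ + 1) * m + (j - j₀ - 1) * m = i₁ + j * m := by
            rw [add_assoc, ← Nat.add_mul]
            congr 2
            omega
          rw [h2]
          exact hj2
      exact (card_le_card h1).trans ((card_union_le _ _).trans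
        (Nat.add_le_add_left card_image_le _))
    by_cases hcmp : A₂.card ≤ A₁.card
    · refine ⟨i₁, j₀, by omega, hsegm i₁ j₀ (fun j hj => (hN₁ j).mp (by omega)),
        fun j hj => hoth j (by omega) (by omega), ?_⟩
      convert hfin A₁.card (by omega)
    · refine ⟨i₁ + (j₀ + 1) * m, N₁ - j₀ - 1, by omega, hsegm _ _ ?_, ?_, ?_⟩
      · intro j hj
        have h2 : i₁ + (j₀ + 1) * m + j * m = i₁ + (j₀ + 1 + j) * m := by ring
        rw [h2]
        exact (hN₁ _).mp (by omega)
      · intro j hj
        have h2 : i₁ + (j₀ + 1) * m + j * m = i₁ + (j₀ + 1 + j) * m := by ring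
        rw [h2]
        exact hoth _ (by omega) (by omega)
      · convert hfin A₂.card (by omega)

end Pool.Agent.Q246.SP
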