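import Pool.Agent.Q41.SP.Stm5

/-!
# Homogeneous forms of rational maps
-/

namespace Pool.Agent.Q246.SP

open Finset Polynomial
open Pool.Agent.Q41.SP Pool.Agent.Q41.SU

universe u

section

variable {E : Type u} [Field E]

/-- the value of the form of degree `d` associated with `A` -/
noncomputable def fm {E : Type*} [Field E] (d : ℕ) (A : E[X]) (s t : E) : E :=
  ∑ i ∈ range (d + 1), A.coeff i * s ^ i * t ^ (d - i)

lemma hcm_eval (d : ℕ) (A u v : E[X]) (c : E) :
    (hcm d A u v).eval c = fm d A (u.eval c) (v.eval c) := by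
  unfold hcm fm
  rw [eval_finsetSum]
  apply Finset.sum_congr rfl
  intro i _
  simp

lemma fm_eq {E : Type*} [Field E] (d : ℕ) (A : E[X]) (hA : A.natDegree ≤ d) (s t : E)
    (ht : t ≠ 0) : fm d A s t = t ^ d * A.eval (s / t) := by
  unfold fm
  rw [eval_eq_sum_range' (n := d + 1) (Nat.lt_succ_of_le hA), Finset.mul_sum]
  apply Finset.sum_congr rfl
  intro i hi
  rw [Finset.mem_range] at hi
  have : t ^ d = t ^ i * t ^ (d - i) := by
    rw [← pow_add]
    congr 1
    omega
  rw [this, div_pow]
  field_simp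

lemma fm_zero {E : Type*} [Field E] (d : ℕ) (A : E[X]) (s : E) :
    fm d A s 0 = A.coeff d * s ^ d := by
  unfold fm
  rw [Finset.sum_eq_single d]
  · simp
  · intro i hi hid
    rw [Finset.mem_range] at hi
    rw [zero_pow (by omega), mul_zero]
  · intro h
    exact absurd (Finset.mem_range.mpr (by omega)) h

lemma rm_left {E : Type*} [Field E] {d : ℕ} {p q : E[X]} (h : RM d p q) : p.natDegree ≤ d := by
  rw [← h.deg]
  exact le_max_left _ _

lemma rm_right {E : Type*} [Field E] {d : ℕ} {p q : E[X]} (h : RM d p q) : q.natDegree ≤ d := by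
  rw [← h.deg]
  exact le_max_right _ _

lemma rm_coeff {E : Type*} [Field E] {d : ℕ} {p q : E[X]} (h : RM d p q) :
    p.coeff d ≠ 0 ∨ q.coeff d ≠ 0 := by
  by_contra hcon
  push Not at hcon
  obtain ⟨h1, h2⟩ := hcon
  rcases Nat.eq_zero_or_pos d with rfl | hd
  · have hp : p = 0 := by
      rw [eq_C_of_natDegree_le_zero (rm_left h), h1, C_0]
    have hq : q = 0 := by
      rw [eq_C_of_natDegree_le_zero (rm_right h), h2, C_0]
    have := h.co
    rw [hp, hq] at this
    exact not_isCoprime_zero_zero this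
  · have hp : p.natDegree < d := by
      rcases (rm_left h).lt_or_eq with h3 | h3
      · exact h3
      · exfalso
        have h4 : p.leadingCoeff = 0 := by
          rw [leadingCoeff, h3, h1]
        rw [leadingCoeff_eq_zero] at h4
        rw [h4] at h3
        simp at h3
        omega
    have hq : q.natDegree < d := by
      rcases (rm_right h).lt_or_eq with h3 | h3
      · exact h3
      · exfalso
        have h4 : q.leadingCoeff = 0 := by
          rw [leadingCoeff, h3, h2]
        rw [leadingCoeff_eq_zero] at h4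
        rw [h4] at h3
        simp at h3
        omega
    have := max_lt hp hq
    rw [h.deg] at this
    exact lt_irrefl _ this

lemma rm_of {E : Type*} [Field E] {d : ℕ} {p q : E[X]} (h : IsCoprime p q) (hp : p.natDegree ≤ d)
    (hq : q.natDegree ≤ d) (hc : p.coeff d ≠ 0 ∨ q.coeff d ≠ 0) : RM d p q := by
  refine ⟨h, le_antisymm (max_le hp hq) ?_⟩
  rcases hc with hc | hc
  · exact (le_natDegree_of_ne_zero hc).trans (le_max_left _ _)
  · exact (le_natDegree_of_ne_zero hc).trans (le_max_right _ _)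

lemma rm_map {E L : Type*} [Field E] [Field L] {d : ℕ} {p q : E[X]} (h : RM d p q) (f : E →+* L) :
    RM d (p.map f) (q.map f) := by
  refine ⟨?_, ?_⟩
  · exact h.co.map (mapRingHom f)
  · rw [natDegree_map, natDegree_map, h.deg]

/-- the forms have no common zero -/
lemma fm_ne {E : Type*} [Field E] {d : ℕ} {p q : E[X]} (h : RM d p q) (s t : E)
    (hst : s ≠ 0 ∨ t ≠ 0) : fm d p s t ≠ 0 ∨ fm d q s t ≠ 0 := by
  by_contra hcon
  push Not at hcon
  obtain ⟨h1, h2⟩ := hcon
  by_cases ht : t = 0
  · subst ht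
    have hs : s ≠ 0 := by
      rcases hst with h3 | h3
      · exact h3
      · exact absurd rfl h3
    rw [fm_zero] at h1 h2
    rcases (rm_coeff h) with h3 | h3
    · exact h3 ((mul_eq_zero.mp h1).resolve_right (pow_ne_zero _ hs))
    · exact h3 ((mul_eq_zero.mp h2).resolve_right (pow_ne_zero _ hs))
  · rw [fm_eq d p (rm_left h) s t ht] at h1
    rw [fm_eq d q (rm_right h) s t ht] at h2
    have h3 := (mul_eq_zero.mp h1).resolve_left (pow_ne_zero _ ht)
    have h4 := (mul_eq_zero.mp h2).resolve_left (pow_ne_zero _ ht)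
    obtain ⟨a, b, hab⟩ := h.co
    have h5 := congrArg (Polynomial.eval (s / t)) hab
    rw [eval_add, eval_mul, eval_mul, h3, h4, mul_zero, mul_zero, add_zero, eval_one] at h5
    exact zero_ne_one h5

/-- a form at a vector of polynomials, in an extension field -/
lemma hcm_aeval {L : Type*} [Field L] [Algebra E L] (d : ℕ) (A u v : E[X]) (z : L) :
    aeval z (hcm d A u v) = fm d (A.map (algebraMap E L)) (aeval z u) (aeval z v) := by
  unfold hcm fm
  rw [map_sum]
  apply Finset.sum_congr rfl
  intro i _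
  rw [map_mul, map_mul, map_pow, map_pow, aeval_C, coeff_map]

lemma hcm_coprime {d : ℕ} {p q : E[X]} (h : RM d p q) {u v : E[X]} (huv : IsCoprime u v) :
    IsCoprime (hcm d p u v) (hcm d q u v) := by
  classical
  by_contra hcon
  have h0 : ¬ (hcm d p u v = 0 ∧ hcm d q u v = 0) ∨ (hcm d p u v = 0 ∧ hcm d q u v = 0) := by
    tauto
  obtain ⟨z, hz1, hz2⟩ : ∃ z : AlgebraicClosure E, aeval z (hcm d p u v) = 0 ∧
      aeval z (hcm d q u v) = 0 := by
    rcases h0 with h0 | h0
    · rw [← EuclideanDomain.gcd_isUnit_iff] at hcon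
      have hg : EuclideanDomain.gcd (hcm d p u v) (hcm d q u v) ≠ 0 := by
        intro h3
        rw [EuclideanDomain.gcd_eq_zero_iff] at h3
        exact h0 h3
      have hdeg : (EuclideanDomain.gcd (hcm d p u v) (hcm d q u v)).degree ≠ 0 := by
        intro h3
        exact hcon (isUnit_iff_degree_eq_zero.mpr h3)
      obtain ⟨z, hz⟩ := IsAlgClosed.exists_aeval_eq_zero (AlgebraicClosure E)
        (EuclideanDomain.gcd (hcm d p u v) (hcm d q u v)) hdeg
      refine ⟨z, ?_, ?_⟩
      · obtain ⟨c, hc⟩ := EuclideanDomain.gcd_dvd_left (hcm d p u v) (hcm d q u v)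
        rw [hc, map_mul, hz, zero_mul]
      · obtain ⟨c, hc⟩ := EuclideanDomain.gcd_dvd_right (hcm d p u v) (hcm d q u v)
        rw [hc, map_mul, hz, zero_mul]
    · exact ⟨0, by rw [h0.1, map_zero], by rw [h0.2, map_zero]⟩
  rw [hcm_aeval] at hz1 hz2
  have hst : aeval z u ≠ 0 ∨ aeval z v ≠ 0 := by
    by_contra h3
    push Not at h3
    obtain ⟨a, b, hab⟩ := huv
    have h5 := congrArg (aeval z) hab
    rw [map_add, map_mul, map_mul, h3.1, h3.2, mul_zero, mul_zero, add_zero, map_one] at h5
    exact zero_ne_one h5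
  rcases fm_ne (rm_map h (algebraMap E (AlgebraicClosure E))) _ _ hst with h3 | h3
  · exact h3 hz1
  · exact h3 hz2

lemma lin_natDegree (a b : E) : (C a * X + C b : E[X]).natDegree ≤ 1 := natDegree_linear_le

lemma hcm_natDegree (d : ℕ) (A u v : E[X]) (e : ℕ) (hu : u.natDegree ≤ e) (hv : v.natDegree ≤ e) :
    (hcm d A u v).natDegree ≤ d * e := by
  unfold hcm
  apply natDegree_sum_le_of_forall_le
  intro i hi
  rw [Finset.mem_range] at hi
  calc (C (A.coeff i) * u ^ i * v ^ (d - i)).natDegree
      ≤ (C (A.coeff i) * u ^ i).natDegree + (v ^ (d - i)).natDegree := natDegree_mul_le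
    _ ≤ i * e + (d - i) * e := by
      apply add_le_add
      · exact (natDegree_C_mul_le _ _).trans (natDegree_pow_le.trans (Nat.mul_le_mul_left _ hu))
      · exact natDegree_pow_le.trans (Nat.mul_le_mul_left _ hv)
    _ = d * e := by
      rw [← Nat.add_mul]
      congr 1
      omega

lemma hcm_coeff (d : ℕ) (A u v : E[X]) (e : ℕ) (hu : u.natDegree ≤ e) (hv : v.natDegree ≤ e) :
    (hcm d A u v).coeff (d * e) = fm d A (u.coeff e) (v.coeff e) := by
  unfold hcm fm
  rw [finsetSum_coeff]
  apply Finset.sum_congr rfl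
  intro i hi
  rw [Finset.mem_range] at hi
  have h1 : d * e = i * e + (d - i) * e := by
    rw [← Nat.add_mul]
    congr 1
    omega
  have h2 : (C (A.coeff i) * u ^ i).natDegree ≤ i * e :=
    (natDegree_C_mul_le _ _).trans (natDegree_pow_le.trans (Nat.mul_le_mul_left _ hu))
  have h3 : (v ^ (d - i)).natDegree ≤ (d - i) * e :=
    natDegree_pow_le.trans (Nat.mul_le_mul_left _ hv)
  rw [h1, coeff_mul_add_eq_of_natDegree_le h2 h3, coeff_C_mul,
    coeff_pow_of_natDegree_le hu, coeff_pow_of_natDegree_le hv]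

end

end Pool.Agent.Q246.SP
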