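import Pool.Agent.Q246.SP.Intp

/-!
# From relations to a frame for the map itself (V11)
-/

namespace Pool.Agent.Q246.SP

open Finset Polynomial
open Pool.Agent.Q41.SP Pool.Agent.Q41.SU

universe u

section

variable {L : Type u} [Field L]

lemma fm_smul {L : Type*} [Field L] (d : ℕ) (A : L[X]) (c s t : L) :
    fm d A (c * s) (c * t) = c ^ d * fm d A s t := by
  unfold fm
  rw [Finset.mul_sum]
  apply Finset.sum_congr rfl
  intro i hi
  rw [Finset.mem_range] at hi
  have : c ^ d = c ^ i * c ^ (d - i) := by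
    rw [← pow_add]
    congr 1
    omega
  rw [this, mul_pow, mul_pow]
  ring

lemma fm_add (d : ℕ) (A B : L[X]) (s t : L) : fm d (A + B) s t = fm d A s t + fm d B s t := by
  unfold fm
  rw [← Finset.sum_add_distrib]
  apply Finset.sum_congr rfl
  intro i _
  rw [coeff_add]
  ring

lemma fm_C_mul (d : ℕ) (c : L) (A : L[X]) (s t : L) : fm d (C c * A) s t = c * fm d A s t := by
  unfold fm
  rw [Finset.mul_sum]
  apply Finset.sum_congr rfl
  intro i _
  rw [coeff_C_mul]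
  ring

lemma fm_mul (m n : ℕ) (A B : L[X]) (hA : A.natDegree ≤ m) (hB : B.natDegree ≤ n) (s t : L) :
    fm (m + n) (A * B) s t = fm m A s t * fm n B s t := by
  by_cases ht : t = 0
  · rw [ht, fm_zero, fm_zero, fm_zero, coeff_mul_add_eq_of_natDegree_le hA hB, pow_add]
    ring
  · rw [fm_eq m A hA s t ht, fm_eq n B hB s t ht, fm_eq (m + n) (A * B)
      (natDegree_mul_le.trans (by omega)) s t ht, eval_mul, pow_add]
    ring

lemma fm_comp (d e : ℕ) (A u v : L[X]) (hu : u.natDegree ≤ e) (hv : v.natDegree ≤ e)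
    (s t : L) : fm (d * e) (hcm d A u v) s t = fm d A (fm e u s t) (fm e v s t) := by
  by_cases ht : t = 0
  · rw [ht, fm_zero, hcm_coeff d A u v e hu hv, fm_zero, fm_zero, mul_comm (u.coeff e),
      mul_comm (v.coeff e), fm_smul, ← pow_mul, mul_comm e d]
    ring
  · rw [fm_eq (d * e) _ (hcm_natDegree d A u v e hu hv) s t ht, hcm_eval,
      fm_eq e u hu s t ht, fm_eq e v hv s t ht, fm_smul, ← pow_mul, mul_comm e d]

lemma fm_lin (a b s t : L) : fm 1 (C a * X + C b) s t = a * s + b * t := by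
  unfold fm
  rw [Finset.sum_range_succ, Finset.sum_range_one]
  simp [coeff_X, coeff_C]
  ring

/-- the homogeneous map -/
noncomputable def hm (d : ℕ) (p q : L[X]) (v : L × L) : L × L := (fm d p v.1 v.2, fm d q v.1 v.2)

lemma itr_fm (d : ℕ) (p q : L[X])
    (hdeg : ∀ n, (itr d p q n).1.natDegree ≤ d ^ n ∧ (itr d p q n).2.natDegree ≤ d ^ n)
    (m : ℕ) (s t : L) :
    (fm (d ^ m) (itr d p q m).1 s t, fm (d ^ m) (itr d p q m).2 s t) = (hm d p q)^[m] (s, t) := by
  induction m with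
  | zero =>
    rw [pow_zero, Function.iterate_zero, id]
    have h1 : (itr d p q 0).1 = C 1 * X + C 0 := by
      simp [itr]
    have h2 : (itr d p q 0).2 = C 0 * X + C 1 := by
      simp [itr]
    rw [h1, h2, fm_lin, fm_lin]
    ext <;> simp
  | succ m ih =>
    rw [Function.iterate_succ_apply', ← ih]
    have h1 : (itr d p q (m + 1)).1 = hcm d p (itr d p q m).1 (itr d p q m).2 := rfl
    have h2 : (itr d p q (m + 1)).2 = hcm d q (itr d p q m).1 (itr d p q m).2 := rfl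
    rw [h1, h2, pow_succ', fm_comp d (d ^ m) p _ _ (hdeg m).1 (hdeg m).2,
      fm_comp d (d ^ m) q _ _ (hdeg m).1 (hdeg m).2]
    rfl

/-- conjugates of a map and of its iterate commute -/
lemma comm_aux [Infinite L] (d m : ℕ) (p q : L[X]) (hRM : RM d p q)
    (hit : ∀ n, RM (d ^ n) (itr d p q n).1 (itr d p q n).2) (μ : Mb L) (F G : L[X])
    (hcj : Cj (d ^ m) μ (itr d p q m).1 (itr d p q m).2 F G) :
    hcm d (cN d μ p q) F G * hcm (d ^ m) G (cN d μ p q) (cD' d μ p q) =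
      hcm d (cD' d μ p q) F G * hcm (d ^ m) F (cN d μ p q) (cD' d μ p q) := by
  obtain ⟨hμ, hrm, heq⟩ := hcj
  set D := d ^ m with hD
  set P := (itr d p q m).1 with hP
  set Q := (itr d p q m).2 with hQ
  set v := cN d μ p q with hv
  set w := cD' d μ p q with hw
  have hdeg : ∀ n, (itr d p q n).1.natDegree ≤ d ^ n ∧ (itr d p q n).2.natDegree ≤ d ^ n :=
    fun n => ⟨rm_left (hit n), rm_right (hit n)⟩
  have hvw : RM d v w := cN_rm d μ hμ p q hRM
  -- the first relation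
  have e1 : ∀ s t : L, μ.α * fm d v s t + μ.β * fm d w s t =
      μ.det * fm d p (μ.α * s + μ.β * t) (μ.γ * s + μ.δ * t) := by
    intro s t
    have h1 := congrArg (fun A => fm d A s t) (cN_cD d μ p q).1
    simp only [fm_add, fm_C_mul] at h1
    have h2 := fm_comp d 1 p _ _ (lin_natDegree μ.α μ.β) (lin_natDegree μ.γ μ.δ) s t
    rw [mul_one, fm_lin, fm_lin] at h2
    rw [h2] at h1
    exact h1
  have e2 : ∀ s t : L, μ.γ * fm d v s t + μ.δ * fm d w s t =
      μ.det * fm d q (μ.α * s + μ.β * t) (μ.γ * s + μ.δ * t) := by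
    intro s t
    have h1 := congrArg (fun A => fm d A s t) (cN_cD d μ p q).2
    simp only [fm_add, fm_C_mul] at h1
    have h2 := fm_comp d 1 q _ _ (lin_natDegree μ.α μ.β) (lin_natDegree μ.γ μ.δ) s t
    rw [mul_one, fm_lin, fm_lin] at h2
    rw [h2] at h1
    exact h1
  -- the second relation
  have e3 : ∀ s t : L, fm D P (μ.α * s + μ.β * t) (μ.γ * s + μ.δ * t) *
      (μ.γ * fm D F s t + μ.δ * fm D G s t) =
      fm D Q (μ.α * s + μ.β * t) (μ.γ * s + μ.δ * t) *
      (μ.α * fm D F s t + μ.β * fm D G s t) := by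
    intro s t
    have hd1 : ∀ A : L[X], (hcm D A (C μ.α * X + C μ.β) (C μ.γ * X + C μ.δ)).natDegree ≤ D := by
      intro A
      have := hcm_natDegree D A _ _ 1 (lin_natDegree μ.α μ.β) (lin_natDegree μ.γ μ.δ)
      rwa [mul_one] at this
    have hd2 : ∀ a b : L, (C a * F + C b * G).natDegree ≤ D := by
      intro a b
      exact (natDegree_add_le _ _).trans (max_le
        ((natDegree_C_mul_le _ _).trans (rm_left hrm))
        ((natDegree_C_mul_le _ _).trans (rm_right hrm)))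
    have h1 := congrArg (fun A => fm (D + D) A s t) heq
    rw [fm_mul D D _ _ (hd1 P) (hd2 _ _), fm_mul D D _ _ (hd1 Q) (hd2 _ _), fm_add, fm_add,
      fm_C_mul, fm_C_mul, fm_C_mul, fm_C_mul] at h1
    have h2 := fm_comp D 1 P _ _ (lin_natDegree μ.α μ.β) (lin_natDegree μ.γ μ.δ) s t
    have h3 := fm_comp D 1 Q _ _ (lin_natDegree μ.α μ.β) (lin_natDegree μ.γ μ.δ) s t
    rw [mul_one, fm_lin, fm_lin] at h2 h3
    rw [h2, h3] at h1
    exact h1
  apply Polynomial.funext
  intro z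
  rw [eval_mul, eval_mul, hcm_eval, hcm_eval, hcm_eval, hcm_eval]
  -- values
  have hz : ∀ (n : ℕ) (A : L[X]), A.natDegree ≤ n → A.eval z = fm n A z 1 := by
    intro n A hA
    rw [fm_eq n A hA z 1 one_ne_zero]
    simp
  rw [hz D F (rm_left hrm), hz D G (rm_right hrm), hz d v (rm_left hvw), hz d w (rm_right hvw)]
  set F1 := fm D F z 1 with hF1
  set G1 := fm D G z 1 with hG1
  set v1 := fm d v z 1 with hv1
  set w1 := fm d w z 1 with hw1
  set a := μ.α * z + μ.β * 1 with ha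
  set b := μ.γ * z + μ.δ * 1 with hb
  have hab : a ≠ 0 ∨ b ≠ 0 := by
    by_contra hcon
    push Not at hcon
    obtain ⟨h1, h2⟩ := hcon
    apply hμ
    unfold Mb.det
    rw [ha] at h1
    rw [hb] at h2
    linear_combination μ.α * h2 - μ.γ * h1
  set P1 := fm D P a b with hP1
  set Q1 := fm D Q a b with hQ1
  have hPQ : P1 ≠ 0 ∨ Q1 ≠ 0 := fm_ne (hit m) a b hab
  have h3 : P1 * (μ.γ * F1 + μ.δ * G1) = Q1 * (μ.α * F1 + μ.β * G1) := e3 z 1
  obtain ⟨c, hc1, hc2⟩ : ∃ c : L, μ.α * F1 + μ.β * G1 = c * P1 ∧ μ.γ * F1 + μ.δ * G1 = c * Q1 := by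
    rcases hPQ with h | h
    · refine ⟨(μ.α * F1 + μ.β * G1) / P1, ?_, ?_⟩
      · field_simp
      · field_simp
        linear_combination h3
    · refine ⟨(μ.γ * F1 + μ.δ * G1) / Q1, ?_, ?_⟩
      · field_simp
        linear_combination -h3
      · field_simp
  -- the two orders of composition
  have hitm : (P1, Q1) = (hm d p q)^[m] (a, b) := itr_fm d p q hdeg m a b
  have hitm' : (fm D P (fm d p a b) (fm d q a b), fm D Q (fm d p a b) (fm d q a b)) =
      (hm d p q)^[m] (hm d p q (a, b)) := itr_fm d p q hdeg m _ _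
  have hswap : (fm D P (fm d p a b) (fm d q a b), fm D Q (fm d p a b) (fm d q a b)) =
      (fm d p P1 Q1, fm d q P1 Q1) := by
    rw [hitm', ← Function.iterate_succ_apply, Function.iterate_succ_apply', ← hitm]
    rfl
  have hs1 := congrArg Prod.fst hswap
  have hs2 := congrArg Prod.snd hswap
  simp only at hs1 hs2
  have hv1' : μ.α * v1 + μ.β * w1 = μ.det * fm d p a b := e1 z 1
  have hw1' : μ.γ * v1 + μ.δ * w1 = μ.det * fm d q a b := e2 z 1
  have h4 := e3 v1 w1
  rw [hv1', hw1', fm_smul, fm_smul, hs1, hs2] at h4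
  have h5 := e1 F1 G1
  have h6 := e2 F1 G1
  rw [hc1, hc2, fm_smul] at h5 h6
  -- cross products
  have h7 : fm d p P1 Q1 * (μ.γ * fm D F v1 w1 + μ.δ * fm D G v1 w1) =
      fm d q P1 Q1 * (μ.α * fm D F v1 w1 + μ.β * fm D G v1 w1) := by
    apply mul_left_cancel₀ (pow_ne_zero D hμ)
    linear_combination h4
  apply mul_left_cancel₀ hμ
  have h8 : μ.det * (fm d v F1 G1 * fm D G v1 w1 - fm d w F1 G1 * fm D F v1 w1) =
      (μ.α * fm d v F1 G1 + μ.β * fm d w F1 G1) * (μ.γ * fm D F v1 w1 + μ.δ * fm D G v1 w1) -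
      (μ.γ * fm d v F1 G1 + μ.δ * fm d w F1 G1) * (μ.α * fm D F v1 w1 + μ.β * fm D G v1 w1) := by
    unfold Mb.det
    ring
  have h9 : (μ.α * fm d v F1 G1 + μ.β * fm d w F1 G1) *
      (μ.γ * fm D F v1 w1 + μ.δ * fm D G v1 w1) -
      (μ.γ * fm d v F1 G1 + μ.δ * fm d w F1 G1) * (μ.α * fm D F v1 w1 + μ.β * fm D G v1 w1) = 0 := by
    rw [h5, h6]
    linear_combination μ.det * c ^ d * h7
  rw [h9] at h8
  linear_combination h8

lemma hcm_map {E L : Type*} [Field E] [Field L] (ι : E →+* L) (d : ℕ) (A u v : E[X]) :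
    (hcm d A u v).map ι = hcm d (A.map ι) (u.map ι) (v.map ι) := by
  unfold hcm
  rw [Polynomial.map_sum]
  apply Finset.sum_congr rfl
  intro i _
  simp

lemma itr_map {E L : Type*} [Field E] [Field L] (ι : E →+* L) (d : ℕ) (p q : E[X]) (n : ℕ) :
    (itr d (p.map ι) (q.map ι) n).1 = (itr d p q n).1.map ι ∧
      (itr d (p.map ι) (q.map ι) n).2 = (itr d p q n).2.map ι := by
  induction n with
  | zero => simp [itr]
  | succ n ih =>
    obtain ⟨h1, h2⟩ := ih
    refine ⟨?_, ?_⟩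
    · change hcm d (p.map ι) (itr d (p.map ι) (q.map ι) n).1 (itr d (p.map ι) (q.map ι) n).2 =
        (hcm d p (itr d p q n).1 (itr d p q n).2).map ι
      rw [h1, h2, hcm_map]
    · change hcm d (q.map ι) (itr d (p.map ι) (q.map ι) n).1 (itr d (p.map ι) (q.map ι) n).2 =
        (hcm d q (itr d p q n).1 (itr d p q n).2).map ι
      rw [h1, h2, hcm_map]

/-- conjugates of a map and of its iterate commute -/
lemma comm (hit : S_itP.{u}) {E : Type u} [Field E] (d m : ℕ) (hd : 1 ≤ d) (p q : E[X])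
    (hRM : RM d p q) (μ : Mb E) (F G : E[X])
    (hcj : Cj (d ^ m) μ (itr d p q m).1 (itr d p q m).2 F G) :
    hcm d (cN d μ p q) F G * hcm (d ^ m) G (cN d μ p q) (cD' d μ p q) =
      hcm d (cD' d μ p q) F G * hcm (d ^ m) F (cN d μ p q) (cD' d μ p q) := by
  set ι := algebraMap E (AlgebraicClosure E) with hι
  have hιi : Function.Injective ι := ι.injective
  set μ' : Mb (AlgebraicClosure E) := ⟨ι μ.α, ι μ.β, ι μ.γ, ι μ.δ⟩ with hμ'
  have hl1 : (C μ'.α * X + C μ'.β) = (C μ.α * X + C μ.β : E[X]).map ι := by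
    simp [hμ']
  have hl2 : (C μ'.γ * X + C μ'.δ) = (C μ.γ * X + C μ.δ : E[X]).map ι := by
    simp [hμ']
  have hcN : cN d μ' (p.map ι) (q.map ι) = (cN d μ p q).map ι := by
    unfold cN
    rw [hl1, hl2, Polynomial.map_sub, Polynomial.map_mul, Polynomial.map_mul, hcm_map, hcm_map,
      map_C, map_C]
  have hcD : cD' d μ' (p.map ι) (q.map ι) = (cD' d μ p q).map ι := by
    unfold cD'
    rw [hl1, hl2, Polynomial.map_sub, Polynomial.map_mul, Polynomial.map_mul, hcm_map, hcm_map,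
      map_C, map_C]
  have hcj' : Cj (d ^ m) μ' (itr d (p.map ι) (q.map ι) m).1 (itr d (p.map ι) (q.map ι) m).2
      (F.map ι) (G.map ι) := by
    refine ⟨?_, rm_map hcj.rm ι, ?_⟩
    · have h1 : μ'.det = ι μ.det := by
        simp [hμ', Mb.det]
      rw [h1, Ne, map_eq_zero]
      exact hcj.det
    · rw [(itr_map ι d p q m).1, (itr_map ι d p q m).2, hl1, hl2, ← hcm_map, ← hcm_map]
      have h1 := congrArg (Polynomial.map ι) hcj.eq
      rw [Polynomial.map_mul, Polynomial.map_mul, Polynomial.map_add, Polynomial.map_add,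
        Polynomial.map_mul, Polynomial.map_mul, Polynomial.map_mul, Polynomial.map_mul, map_C,
        map_C, map_C, map_C] at h1
      exact h1
  have h := comm_aux d m (p.map ι) (q.map ι) (rm_map hRM ι)
    (fun n => (hit (AlgebraicClosure E) d (p.map ι) (q.map ι) hd (rm_map hRM ι) n).1) μ'
    (F.map ι) (G.map ι) hcj'
  rw [hcN, hcD, ← hcm_map, ← hcm_map, ← hcm_map, ← hcm_map, ← Polynomial.map_mul,
    ← Polynomial.map_mul] at h
  exact Polynomial.map_injective ι hιi h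

lemma sub_mono {E : Type u} [Field E] (l K K' : ℕ) (h : K' ≤ K) (μ : Mb E) (x : E)
    (hx : Sub l K μ x) : Sub l K' μ x := by
  obtain ⟨w, h1, h2⟩ := hx
  have e : (w ^ l ^ (K - K')) ^ l ^ K' = w ^ l ^ K := by
    rw [← pow_mul, ← pow_add]
    congr 2
    omega
  exact ⟨w ^ l ^ (K - K'), by rw [e]; exact h1, by rw [e]; exact h2⟩

end

/-- (V11) -/
theorem comP (h1 : S_fskP.{u}) (h2 : S_pigP) (h3 : S_itP.{u}) (h4 : S_intpP.{u})
    (h5 : S_ctP.{u}) : S_comP.{u} := by
  classical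
  intro l d β K' ε hl hd hε
  have hε' : 0 < ε / (2 * (β + 1)) := by positivity
  obtain ⟨J, ε'', N₂, hε'', hpig⟩ := h2 1 (ε / (2 * (β + 1))) le_rfl hε'
  have hct : ∀ m : ℕ, ∃ c : ℕ, 1 ≤ m →
    ∀ (k E : Type u) [Field k] [Field E] [Algebra k E] [Fact l.Prime] [CharP E l]
    (τ : E →ₐ[k] PowerSeries E) (D : Derivation k E E), IsHT l τ D → ∀ (K : ℕ)
    (P Q P' Q' v w : E[X]),
    RM (d ^ m) (P.map (iterateFrobenius E l K)) (Q.map (iterateFrobenius E l K)) →
    RM (d ^ m) (P'.map (iterateFrobenius E l K)) (Q'.map (iterateFrobenius E l K)) → RM d v w →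
    hcm d v (P.map (iterateFrobenius E l K)) (Q.map (iterateFrobenius E l K)) *
        hcm (d ^ m) (Q'.map (iterateFrobenius E l K)) v w =
      hcm d w (P.map (iterateFrobenius E l K)) (Q.map (iterateFrobenius E l K)) *
        hcm (d ^ m) (P'.map (iterateFrobenius E l K)) v w →
    ∃ (b : E) (v₀ w₀ : E[X]), b ≠ 0 ∧ C b * v = v₀.map (iterateFrobenius E l (K - c)) ∧
      C b * w = w₀.map (iterateFrobenius E l (K - c)) := by
    intro m
    by_cases hm : 1 ≤ m
    · have : 2 ≤ d ^ m := hd.trans (Nat.le_self_pow (by omega) d)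
      obtain ⟨c, hc⟩ := h5 l (d ^ m) d hl this (by omega)
      exact ⟨c, fun _ => hc⟩
    · exact ⟨0, fun h => absurd h hm⟩
  choose cm hcm' using hct
  set c := (range (J + 1)).sup cm with hc
  obtain ⟨M, hM⟩ := h1 l d β (K' + c) ε hl hd hε
  refine ⟨M, fun r H => ?_⟩
  obtain ⟨N₁, hN₁⟩ := hM r H
  refine ⟨max (max N₁ N₂) (⌈((2 * d ^ J + 1 : ℕ) : ℝ) / ε''⌉₊ + 1), ?_⟩
  intro k E _ _ _ _ _ τ D hτ p q hRM n x hseg hn W hW hWc G hG hred hVa
  have hn1 : N₁ ≤ n := (le_max_left _ _).trans ((le_max_left _ _).trans hn)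
  have hn2 : N₂ ≤ n := (le_max_right _ _).trans ((le_max_left _ _).trans hn)
  have hn3 : ⌈((2 * d ^ J + 1 : ℕ) : ℝ) / ε''⌉₊ + 1 ≤ n := (le_max_right _ _).trans hn
  have hn4 : ((2 * d ^ J + 1 : ℕ) : ℝ) ≤ ε'' * n := by
    have h6 : ((2 * d ^ J + 1 : ℕ) : ℝ) / ε'' ≤ n := Nat.ceil_le.mp (by omega)
    rw [div_le_iff₀ hε''] at h6
    linarith
  obtain ⟨μ, hμ, W', hW', hW'c, hW's⟩ := hN₁ k E τ D hτ p q hRM n x hseg hn1 W hW hWc G hG hred hVa
  obtain ⟨m, hm1, hmJ, -, hmc⟩ := hpig n hn2 W' (hW'.trans hW) hW'c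
  set V := W'.filter fun i => i + m ∈ W' with hV
  obtain ⟨hRMm, hitm, -⟩ := h3 E d p q (by omega) hRM m
  set P := (itr d p q m).1 with hP
  set Q := (itr d p q m).2 with hQ
  -- the coordinates
  have hcoord : ∀ i : ℕ, ∃ w : E, i ∈ W' → μ.den (w ^ l ^ (K' + c)) ≠ 0 ∧
      x i = μ.app (w ^ l ^ (K' + c)) := by
    intro i
    by_cases hi : i ∈ W'
    · obtain ⟨w, hw⟩ := hW's i hi
      exact ⟨w, fun _ => hw⟩
    · exact ⟨0, fun h => absurd h hi⟩
  choose w hw using hcoord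
  have hVW : ∀ i ∈ V, i ∈ W' ∧ i + m ∈ W' := fun i hi => mem_filter.mp hi
  have hlt : ∀ i ∈ W', i < n := fun i hi => Finset.mem_range.mp (hW (hW' hi))
  have hcardT : 2 * d ^ m < (V.image w).card := by
    rw [card_image_of_injOn]
    · have h6 : ((2 * d ^ J + 1 : ℕ) : ℝ) ≤ (V.card : ℝ) := hn4.trans hmc
      have h7 : 2 * d ^ J + 1 ≤ V.card := by exact_mod_cast h6
      have h8 : d ^ m ≤ d ^ J := Nat.pow_le_pow_right (by omega) hmJ
      omega
    · intro i hi j hj hij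
      have hi' := (hVW i (Finset.mem_coe.mp hi)).1
      have hj' := (hVW j (Finset.mem_coe.mp hj)).1
      apply hseg.inj i (hlt i hi') j (hlt j hj')
      rw [(hw i hi').2, (hw j hj').2, hij]
  obtain ⟨P₀, Q₀, hOv⟩ := h4 l (K' + c) (d ^ m) E P Q hRMm μ (V.image w) hμ hcardT (by
    intro w' hw'
    obtain ⟨i, hi, rfl⟩ := mem_image.mp hw'
    obtain ⟨hi1, hi2⟩ := hVW i hi
    obtain ⟨h6, h7⟩ := hw i hi1
    obtain ⟨h8, h9⟩ := hitm n x hseg i (hlt _ hi2)
    rw [← h7]
    refine ⟨h6, h8, ?_⟩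
    rw [← h9]
    exact hW's _ hi2)
  have hcomm := comm h3 d m (by omega) p q hRM μ _ _ hOv
  obtain ⟨b, v₀, w₀, hb, hv₀, hw₀⟩ := hcm' m hm1 k E τ D hτ (K' + c) P₀ Q₀ P₀ Q₀
    (cN d μ p q) (cD' d μ p q) hOv.rm hOv.rm (cN_rm d μ hμ p q hRM) hcomm
  have hcmc : cm m ≤ c := le_sup (f := cm) (Finset.mem_range.mpr (by omega))
  have hfr : ∀ A : E[X], A.map (iterateFrobenius E l (K' + c - cm m)) =
      (A.map (iterateFrobenius E l (c - cm m))).map (iterateFrobenius E l K') := by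
    intro A
    rw [Polynomial.map_map]
    congr 1
    ext e
    rw [RingHom.comp_apply, iterateFrobenius_def, iterateFrobenius_def, iterateFrobenius_def,
      ← pow_mul, ← pow_add]
    congr 2
    omega
  rw [hfr] at hv₀ hw₀
  refine ⟨μ, v₀.map (iterateFrobenius E l (c - cm m)), w₀.map (iterateFrobenius E l (c - cm m)),
    ?_, ?_⟩
  · unfold Ov
    rw [← hv₀, ← hw₀]
    apply cj_of d μ hμ p q _ _ hRM
    · have h6 : IsCoprime (cN d μ p q) (cD' d μ p q) := (cN_rm d μ hμ p q hRM).co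
      have hu : IsUnit (C b) := isUnit_C.mpr (isUnit_iff_ne_zero.mpr hb)
      exact (isCoprime_mul_unit_left_left hu _ _).mpr
        ((isCoprime_mul_unit_left_right hu _ _).mpr h6)
    · ring
  · have hW'ne : W'.Nonempty := by
      rw [← card_pos]
      have h6 : (0 : ℝ) < n := by
        have : 0 < n := by omega
        exact_mod_cast this
      have h7 : (0 : ℝ) < W'.card := lt_of_lt_of_le (by positivity) hW'c
      exact_mod_cast h7
    obtain ⟨i, hi⟩ := hW'ne
    exact ⟨i, hW' hi, sub_mono l (K' + c) K' (by omega) μ _ (hW's i hi)⟩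

end Pool.Agent.Q246.SP
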